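import Pool.Agent.N757.SZ.Down

/-!
# From the thin family to the `abc` side: the estimate
-/

set_option autoImplicit false

namespace Pool.Agent.N757.SZ

open Finset

/-- the real inequality -/
theorem est {θ ε ε₁ a x S D H R K q : ℝ} {m : ℕ} (hθ0 : 0 ≤ θ) (hθ1 : θ ≤ 1)
    (hε : 0 < ε) (hε₁ : ε₁ = ε / (1 + (6 + ε) * m)) (hm : 1 ≤ m) (ha : 1 ≤ a) (hx : 1 ≤ x)
    (hS : S ≤ m * x ^ (m - 1)) (hS0 : 0 < S) (hq0 : 0 < q) (hq1 : q ≤ 1)
    (hD : q * (a * x ^ (6 * m - 1)) ≤ D) (hH : q * x ^ (6 * m) ≤ H) (hR : 1 ≤ R) (hK : 1 ≤ K)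
    (h : D ^ (1 - θ) * H ^ θ ≤ K * (R * S) ^ (6 + ε₁)) :
    a ^ (1 - θ) * x ^ (5 + θ) ≤
      (K / q * m ^ (6 + ε₁)) ^ (1 / (1 - m * ε₁)) * R ^ (6 + ε) := by
  have hm1 : (1 : ℝ) ≤ m := by exact_mod_cast hm
  have hden : 0 < 1 + (6 + ε) * m := by positivity
  have hε₁0 : 0 < ε₁ := by rw [hε₁]; positivity
  have hη : m * ε₁ < 1 := by
    rw [hε₁, ← mul_div_assoc, div_lt_one hden]
    nlinarith
  have hid : ε₁ * (1 + (6 + ε) * m) = ε := by rw [hε₁]; field_simp
  have hx0 : 0 < x := by linarith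
  have ha0 : 0 < a := by linarith
  set Y := a ^ (1 - θ) * x ^ (5 + θ) with hY
  have hY0 : 0 < Y := by positivity
  have hxY : x ≤ Y := by
    have h1 : 1 ≤ a ^ (1 - θ) := Real.one_le_rpow ha (by linarith)
    have h2 : x ≤ x ^ (5 + θ) := by
      calc x = x ^ (1 : ℝ) := (Real.rpow_one x).symm
        _ ≤ x ^ (5 + θ) := Real.rpow_le_rpow_of_exponent_le hx (by linarith)
    calc x = 1 * x := (one_mul x).symm
      _ ≤ a ^ (1 - θ) * x ^ (5 + θ) := mul_le_mul h1 h2 hx0.le (by positivity)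
  -- the lower bound
  have e6 : ((6 * m - 1 : ℕ) : ℝ) = 6 * m - 1 := by
    rw [Nat.cast_sub (by omega)]; push_cast; ring
  have e1 : ((m - 1 : ℕ) : ℝ) = m - 1 := by
    rw [Nat.cast_sub hm]; push_cast; ring
  have low : q * (Y * x ^ (6 * ((m : ℝ) - 1))) ≤ D ^ (1 - θ) * H ^ θ := by
    have h1 : (q * (a * x ^ (6 * m - 1))) ^ (1 - θ) * (q * x ^ (6 * m)) ^ θ ≤
        D ^ (1 - θ) * H ^ θ := by
      apply mul_le_mul (Real.rpow_le_rpow (by positivity) hD (by linarith))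
        (Real.rpow_le_rpow (by positivity) hH hθ0) (by positivity)
      exact Real.rpow_nonneg (le_trans (by positivity) hD) _
    refine le_trans (le_of_eq ?_) h1
    rw [Real.mul_rpow hq0.le (by positivity), Real.mul_rpow ha0.le (by positivity),
      Real.mul_rpow hq0.le (by positivity), ← Real.rpow_natCast x (6 * m - 1),
      ← Real.rpow_natCast x (6 * m), ← Real.rpow_mul hx0.le, ← Real.rpow_mul hx0.le, e6]
    have hqq : q ^ (1 - θ) * q ^ θ = q := by
      rw [← Real.rpow_add hq0, sub_add_cancel, Real.rpow_one]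
    have hxx : x ^ ((6 * (m : ℝ) - 1) * (1 - θ)) * x ^ (((6 * m : ℕ) : ℝ) * θ) =
        x ^ (5 + θ) * x ^ (6 * ((m : ℝ) - 1)) := by
      rw [← Real.rpow_add hx0, ← Real.rpow_add hx0]
      congr 1
      push_cast
      ring
    calc q * (Y * x ^ (6 * ((m : ℝ) - 1)))
        = q * (a ^ (1 - θ) * (x ^ (5 + θ) * x ^ (6 * ((m : ℝ) - 1)))) := by rw [hY]; ring
      _ = (q ^ (1 - θ) * q ^ θ) * (a ^ (1 - θ) * (x ^ ((6 * (m : ℝ) - 1) * (1 - θ)) *
          x ^ (((6 * m : ℕ) : ℝ) * θ))) := by rw [hqq, hxx]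
      _ = _ := by ring
  -- the upper bound
  have up : (R * S) ^ (6 + ε₁) ≤
      m ^ (6 + ε₁) * R ^ (6 + ε₁) * (x ^ (6 * ((m : ℝ) - 1)) * Y ^ (m * ε₁)) := by
    have h1 : (R * S) ^ (6 + ε₁) ≤ (R * (m * x ^ ((m : ℝ) - 1))) ^ (6 + ε₁) := by
      apply Real.rpow_le_rpow (by positivity) _ (by positivity)
      apply mul_le_mul_of_nonneg_left _ (by linarith)
      rw [← e1, Real.rpow_natCast]; exact hS
    refine h1.trans ?_
    rw [Real.mul_rpow (by linarith) (by positivity), Real.mul_rpow (by positivity) (by positivity),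
      ← Real.rpow_mul hx0.le]
    have h2 : x ^ (((m : ℝ) - 1) * (6 + ε₁)) ≤ x ^ (6 * ((m : ℝ) - 1)) * Y ^ (m * ε₁) := by
      have h3 : x ^ (((m : ℝ) - 1) * (6 + ε₁)) =
          x ^ (6 * ((m : ℝ) - 1)) * x ^ (((m : ℝ) - 1) * ε₁) := by
        rw [← Real.rpow_add hx0]; congr 1; ring
      rw [h3]
      apply mul_le_mul_of_nonneg_left _ (by positivity)
      calc x ^ (((m : ℝ) - 1) * ε₁) ≤ x ^ (m * ε₁) := by
            apply Real.rpow_le_rpow_of_exponent_le hx
            nlinarith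
        _ ≤ Y ^ (m * ε₁) := Real.rpow_le_rpow hx0.le hxY (by positivity)
    calc R ^ (6 + ε₁) * (m ^ (6 + ε₁) * x ^ (((m : ℝ) - 1) * (6 + ε₁)))
        ≤ R ^ (6 + ε₁) * (m ^ (6 + ε₁) * (x ^ (6 * ((m : ℝ) - 1)) * Y ^ (m * ε₁))) := by
          gcongr
      _ = _ := by ring
  have hXpos : 0 < x ^ (6 * ((m : ℝ) - 1)) := by positivity
  have key : Y ≤ (K / q * m ^ (6 + ε₁)) * R ^ (6 + ε₁) * Y ^ (m * ε₁) := by
    have h1 : q * (Y * x ^ (6 * ((m : ℝ) - 1))) ≤
        K * (m ^ (6 + ε₁) * R ^ (6 + ε₁) * (x ^ (6 * ((m : ℝ) - 1)) * Y ^ (m * ε₁))) :=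
      low.trans (h.trans (mul_le_mul_of_nonneg_left up (by linarith)))
    have h2 : (q * x ^ (6 * ((m : ℝ) - 1))) * Y ≤ (q * x ^ (6 * ((m : ℝ) - 1))) *
        ((K / q * m ^ (6 + ε₁)) * R ^ (6 + ε₁) * Y ^ (m * ε₁)) := by
      refine le_trans (le_of_eq (by ring)) (h1.trans (le_of_eq ?_))
      field_simp
    exact le_of_mul_le_mul_left h2 (by positivity)
  refine absorb hY0 ?_ hR hη key ?_
  · have h1 : 1 ≤ K / q := by
      rw [one_le_div hq0]; linarith
    have h2 : (1 : ℝ) ≤ (m : ℝ) ^ (6 + ε₁) := Real.one_le_rpow hm1 (by linarith)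
    calc (1 : ℝ) = 1 * 1 := (one_mul 1).symm
      _ ≤ K / q * m ^ (6 + ε₁) := mul_le_mul h1 h2 (by norm_num) (by positivity)
  · nlinarith

theorem down {θ κ : ℝ} (hθ0 : 0 ≤ θ) (hθ1 : θ ≤ 1) (hκ0 : 0 ≤ κ) (hκ1 : κ < 1) {n N : ℕ}
    (hn : 1 ≤ n) (hN : 1 ≤ N) (h : Sz θ conductor (Thin κ n N)) : AbcT θ := by
  intro ε hε
  -- the exponent
  obtain ⟨L, hL⟩ := exists_nat_ge (1 / (3 * (1 - κ)))
  have hκ' : 0 < 1 - κ := by linarith
  have hM0 : 0 < 2 ^ 16 * N := by positivity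
  set M := 2 ^ 16 * N with hM
  set k := (L + 1) * (M.totient * M) with hk
  have hk0 : 0 < k := by
    have := Nat.totient_pos.2 hM0
    positivity
  have hkM : M ∣ k := Dvd.dvd.mul_left (Dvd.intro_left _ rfl) _
  have hkφ : M.totient ∣ k := Dvd.dvd.mul_left (Dvd.intro _ rfl) _
  set m := k * n with hm
  have hm0 : 1 ≤ m := Nat.mul_pos hk0 hn
  have hLm : (L : ℝ) ≤ m := by
    have h1 : L + 1 ≤ k := Nat.le_mul_of_pos_right _ (Nat.mul_pos (Nat.totient_pos.2 hM0) hM0)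
    have h2 : k ≤ m := Nat.le_mul_of_pos_right _ hn
    exact_mod_cast (by omega : L ≤ m)
  have hexp : 1 ≤ 6 * (m : ℝ) - 1 - 6 * m * κ := by
    have h1 : 1 / (3 * (1 - κ)) ≤ m := hL.trans hLm
    rw [div_le_iff₀ (by positivity)] at h1
    nlinarith
  set ε₁ := ε / (1 + (6 + ε) * m) with hε₁
  have hε₁0 : 0 < ε₁ := by positivity
  obtain ⟨K₀, hK₀⟩ := h ε₁ hε₁0
  set K := max K₀ 1 with hKdef
  have hK1 : 1 ≤ K := le_max_right _ _
  set q : ℝ := 1 / 2 ^ (m + 16) with hq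
  have hq0 : 0 < q := by positivity
  have hq1 : q ≤ 1 := by
    rw [hq, div_le_one (by positivity)]
    exact one_le_pow₀ (by norm_num)
  set T : ℝ := 54 * 2 ^ (m + 16) with hT
  set K₁ := max (T ^ 6) ((K / q * m ^ (6 + ε₁)) ^ (1 / (1 - m * ε₁))) with hK₁
  -- the ordered case
  have main : ∀ a b : ℕ, 0 < a → a ≤ b → a.Coprime b →
      (a : ℝ) ^ (1 - θ) * ((a + b : ℕ) : ℝ) ^ (5 + θ) ≤
        K₁ * (rad (a * b * (a + b)) : ℝ) ^ (6 + ε) := by
    intro a b ha hab hcop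
    have hR : (1 : ℝ) ≤ (rad (a * b * (a + b)) : ℝ) := by exact_mod_cast rad_pos _
    have ha1 : (1 : ℝ) ≤ a := by exact_mod_cast ha
    have hx1 : (1 : ℝ) ≤ ((a + b : ℕ) : ℝ) := by exact_mod_cast (by omega : 1 ≤ a + b)
    have hRp : 1 ≤ (rad (a * b * (a + b)) : ℝ) ^ (6 + ε) := Real.one_le_rpow hR (by linarith)
    by_cases hsmall : ((a + b : ℕ) : ℝ) ≤ T
    · have hax : (a : ℝ) ≤ ((a + b : ℕ) : ℝ) := by exact_mod_cast Nat.le_add_right a b
      calc (a : ℝ) ^ (1 - θ) * ((a + b : ℕ) : ℝ) ^ (5 + θ)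
          ≤ ((a + b : ℕ) : ℝ) ^ (1 - θ) * ((a + b : ℕ) : ℝ) ^ (5 + θ) := by
            apply mul_le_mul_of_nonneg_right _ (by positivity)
            exact Real.rpow_le_rpow (by positivity) hax (by linarith)
        _ = ((a + b : ℕ) : ℝ) ^ (6 : ℕ) := by
            rw [← Real.rpow_add (by linarith), ← Real.rpow_natCast]
            congr 1
            push_cast
            ring
        _ ≤ T ^ 6 := pow_le_pow_left₀ (by linarith) hsmall 6
        _ ≤ K₁ := le_max_left _ _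
        _ ≤ K₁ * (rad (a * b * (a + b)) : ℝ) ^ (6 + ε) :=
            le_mul_of_one_le_right (le_trans (by positivity) (le_max_left _ _)) hRp
    · push Not at hsmall
      obtain ⟨W, S, w1, w2, w3, w4, w5, w6, w7, w8, w9, w10, w11⟩ :=
        exists_member (n := n) (N := N) ha hab hcop hkM hkφ hk0 hn
      rw [← hm] at w6 w7 w8 w9 w10
      set x : ℝ := ((a + b : ℕ) : ℝ) with hx
      have hx0 : 0 < x := by linarith
      -- `b ^ m ≥ x ^ m / 2 ^ m`
      have hb2 : x ^ m / 2 ^ m ≤ (b : ℝ) ^ m := by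
        rw [← div_pow]
        apply pow_le_pow_left₀ (by positivity)
        rw [div_le_iff₀ (by norm_num), hx]
        exact_mod_cast (by omega : a + b ≤ b * 2)
      have hS1 : x ^ (m - 1) ≤ (S : ℝ) := by rw [hx]; exact_mod_cast w6
      have hS2 : (S : ℝ) ≤ m * x ^ (m - 1) := by rw [hx]; exact_mod_cast w7
      have hSpos : (0 : ℝ) < S := lt_of_lt_of_le (by positivity) hS1
      have hD : q * (a * x ^ (6 * m - 1)) ≤ |(W.Δ : ℝ)| := by
        refine le_trans ?_ w8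
        have e : x ^ (6 * m - 1) = x ^ (m - 1) * x ^ m * x ^ (4 * m) := by
          rw [← pow_add, ← pow_add]; congr 1; omega
        calc q * (a * x ^ (6 * m - 1))
            = a * x ^ (m - 1) * (x ^ m / 2 ^ m) * x ^ (4 * m) / 2 ^ 16 := by
              rw [e, hq, pow_add]; field_simp
          _ ≤ a * S * b ^ m * x ^ (4 * m) / 2 ^ 16 := by gcongr
      have hH : q * x ^ (6 * m) ≤ height W := by
        refine le_trans ?_ w9
        rw [hq, one_div_mul_eq_div]
        apply div_le_div_of_nonneg_left (by positivity) (by positivity)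
        exact pow_le_pow_right₀ (by norm_num) (by omega)
      have hlarge : height W ^ κ ≤ |(W.Δ : ℝ)| := by
        have h54 : (54 : ℝ) ^ κ ≤ 54 := by
          calc (54 : ℝ) ^ κ ≤ 54 ^ (1 : ℝ) :=
                Real.rpow_le_rpow_of_exponent_le (by norm_num) hκ1.le
            _ = 54 := Real.rpow_one _
        have e6 : ((6 * m - 1 : ℕ) : ℝ) = 6 * m - 1 := by
          rw [Nat.cast_sub (by omega)]; push_cast; ring
        have h1 : T ≤ x ^ (6 * (m : ℝ) - 1 - 6 * m * κ) := by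
          calc T ≤ x := hsmall.le
            _ = x ^ (1 : ℝ) := (Real.rpow_one x).symm
            _ ≤ _ := Real.rpow_le_rpow_of_exponent_le hx1 hexp
        calc height W ^ κ ≤ (54 * x ^ (6 * m)) ^ κ :=
              Real.rpow_le_rpow (le_trans (by positivity) w9) w10 hκ0
          _ = 54 ^ κ * x ^ (6 * (m : ℝ) * κ) := by
              rw [Real.mul_rpow (by norm_num) (by positivity), ← Real.rpow_natCast x (6 * m),
                ← Real.rpow_mul hx0.le]
              push_cast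
              ring_nf
          _ ≤ 54 * x ^ (6 * (m : ℝ) * κ) := by gcongr
          _ = q * (T * x ^ (6 * (m : ℝ) * κ)) := by
              rw [hq, hT]; field_simp
          _ ≤ q * (x ^ (6 * (m : ℝ) - 1 - 6 * m * κ) * x ^ (6 * (m : ℝ) * κ)) := by gcongr
          _ = q * x ^ (6 * m - 1) := by
              rw [← Real.rpow_add hx0, ← Real.rpow_natCast x (6 * m - 1), e6]
              congr 2
              ring
          _ ≤ q * (a * x ^ (6 * m - 1)) := by
              apply mul_le_mul_of_nonneg_left _ hq0.le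
              exact le_mul_of_one_le_left (by positivity) ha1
          _ ≤ |(W.Δ : ℝ)| := hD
      have hfin := hK₀ W ⟨w1, w2, hlarge, w3, w4, w5⟩
      have hNW : (conductor W : ℝ) ≤ (rad (a * b * (a + b)) : ℝ) * S := by exact_mod_cast w11
      have hfin2 : |(W.Δ : ℝ)| ^ (1 - θ) * height W ^ θ ≤
          K * ((rad (a * b * (a + b)) : ℝ) * S) ^ (6 + ε₁) := by
        refine hfin.trans ?_
        calc K₀ * (conductor W : ℝ) ^ (6 + ε₁) ≤ K * (conductor W : ℝ) ^ (6 + ε₁) :=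
              mul_le_mul_of_nonneg_right (le_max_left _ _) (by positivity)
          _ ≤ K * ((rad (a * b * (a + b)) : ℝ) * S) ^ (6 + ε₁) := by
              apply mul_le_mul_of_nonneg_left _ (by linarith)
              exact Real.rpow_le_rpow (by positivity) hNW (by positivity)
      have hest := est hθ0 hθ1 hε hε₁ hm0 ha1 hx1 hS2 hSpos hq0 hq1 hD hH hR hK1 hfin2
      refine hest.trans ?_
      exact mul_le_mul_of_nonneg_right (le_max_right _ _) (by positivity)
  -- the general case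
  have gen : ∀ a b : ℕ, 0 < a → a ≤ b → a.Coprime b →
      ((a * b * (a + b) : ℕ) : ℝ) ^ (1 - θ) * ((a + b : ℕ) : ℝ) ^ (3 + 3 * θ) ≤
        K₁ * (rad (a * b * (a + b)) : ℝ) ^ (6 + ε) := by
    intro a b ha hab hcop
    refine le_trans ?_ (main a b ha hab hcop)
    have hx0 : (0 : ℝ) < ((a + b : ℕ) : ℝ) := by exact_mod_cast (by omega : 0 < a + b)
    have ha0 : (0 : ℝ) < a := by exact_mod_cast ha
    have h1 : ((a * b * (a + b) : ℕ) : ℝ) ≤ a * ((a + b : ℕ) : ℝ) ^ 2 := by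
      have : a * b * (a + b) ≤ a * (a + b) ^ 2 := by nlinarith [Nat.zero_le (a * a * (a + b))]
      exact_mod_cast this
    calc ((a * b * (a + b) : ℕ) : ℝ) ^ (1 - θ) * ((a + b : ℕ) : ℝ) ^ (3 + 3 * θ)
        ≤ (a * ((a + b : ℕ) : ℝ) ^ 2) ^ (1 - θ) * ((a + b : ℕ) : ℝ) ^ (3 + 3 * θ) := by
          apply mul_le_mul_of_nonneg_right _ (by positivity)
          exact Real.rpow_le_rpow (by positivity) h1 (by linarith)
      _ = a ^ (1 - θ) * ((a + b : ℕ) : ℝ) ^ (5 + θ) := by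
          rw [Real.mul_rpow ha0.le (by positivity), ← Real.rpow_natCast _ 2,
            ← Real.rpow_mul hx0.le, mul_assoc, ← Real.rpow_add hx0]
          congr 2
          push_cast
          ring
  refine ⟨K₁, fun a b ha hb hcop => ?_⟩
  rcases le_total a b with hab | hab
  · exact gen a b ha hab hcop
  · have := gen b a hb hab hcop.symm
    rw [add_comm b a, mul_comm b a] at this
    exact this

end Pool.Agent.N757.SZ
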