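import Pool.Agent.N757.SZ.Size

/-!
# From the thin family to the `abc` side
-/

set_option autoImplicit false

namespace Pool.Agent.N757.SZ

open Finset

/-- `c ^ n - b ^ n = (c - b) S` with `c ^ (n - 1) ≤ S ≤ n c ^ (n - 1)` -/
theorem exists_S {a b n : ℕ} (ha : 0 < a) (hn : 0 < n) :
    ∃ S : ℕ, (a + b) ^ n = a * S + b ^ n ∧ (a + b) ^ (n - 1) ≤ S ∧
      S ≤ n * (a + b) ^ (n - 1) := by
  refine ⟨∑ i ∈ range n, (a + b) ^ i * b ^ (n - 1 - i), ?_, ?_, ?_⟩
  · have h := Commute.geom_sum₂_mul (Commute.all ((a + b : ℕ) : ℤ) (b : ℤ)) n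
    have e : (((a + b : ℕ) : ℤ) - b) = a := by push_cast; ring
    rw [e] at h
    zify
    push_cast at h ⊢
    linarith
  · have h := Finset.single_le_sum (f := fun i => (a + b) ^ i * b ^ (n - 1 - i))
      (fun i _ => Nat.zero_le _) (mem_range.2 (Nat.sub_lt hn Nat.one_pos))
    simpa using h
  · calc ∑ i ∈ range n, (a + b) ^ i * b ^ (n - 1 - i)
        ≤ ∑ i ∈ range n, (a + b) ^ (n - 1) := by
          apply Finset.sum_le_sum
          intro i hi
          have hi' := mem_range.1 hi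
          calc (a + b) ^ i * b ^ (n - 1 - i) ≤ (a + b) ^ i * (a + b) ^ (n - 1 - i) :=
                Nat.mul_le_mul_left _ (Nat.pow_le_pow_left (by omega) _)
            _ = (a + b) ^ (n - 1) := by rw [← pow_add]; congr 1; omega
      _ = n * (a + b) ^ (n - 1) := by rw [sum_const, card_range, smul_eq_mul]

/-- The curve of a pair `a ≤ b`. -/
theorem exists_member {a b k n N : ℕ} (ha : 0 < a) (hab : a ≤ b) (hcop : a.Coprime b)
    (hM : 2 ^ 16 * N ∣ k) (hφ : (2 ^ 16 * N).totient ∣ k) (hk : 0 < k) (hn : 1 ≤ n) :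
    ∃ (W : WeierstrassCurve ℤ) (S : ℕ), W.Δ ≠ 0 ∧ IsCoprime W.c₄ W.Δ ∧ HasTwoTorsion W ∧
      (N : ℤ) ∣ W.Δ ∧ InFamily n W ∧
      (a + b) ^ (k * n - 1) ≤ S ∧ S ≤ (k * n) * (a + b) ^ (k * n - 1) ∧
      ((a : ℝ) * S * b ^ (k * n) * ((a + b : ℕ) : ℝ) ^ (4 * (k * n)) / 2 ^ 16 ≤ |(W.Δ : ℝ)|) ∧
      (((a + b : ℕ) : ℝ) ^ (6 * (k * n)) / 2 ^ 15 ≤ height W) ∧
      (height W ≤ 54 * ((a + b : ℕ) : ℝ) ^ (6 * (k * n))) ∧
      conductor W ≤ rad (a * b * (a + b)) * S := by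
  have hb : 0 < b := lt_of_lt_of_le ha hab
  have hm : 0 < k * n := Nat.mul_pos hk hn
  obtain ⟨S, hS, hS1, hS2⟩ := exists_S (b := b) ha hm
  have hS0 : 0 < S := lt_of_lt_of_le (Nat.pow_pos (by omega)) hS1
  set c := a + b with hc
  have hbc : b < c := by omega
  have hbc' : b.Coprime c := by
    rw [hc]; simpa using hcop.symm
  have hlt : b ^ (k * n) < c ^ (k * n) := Nat.pow_lt_pow_left hbc hm.ne'
  have hdvd : 2 ^ 16 * N ∣ (c ^ (k * n) - b ^ (k * n)) * b ^ (k * n) * c ^ (k * n) :=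
    dvd_key (hM.mul_right n) (hφ.mul_right n) hm hbc
  have hsub : c ^ (k * n) - b ^ (k * n) = a * S := by omega
  rw [hsub] at hdvd
  -- the integers
  obtain ⟨A, hA⟩ : ∃ A : ℤ, A = a * S := ⟨_, rfl⟩
  obtain ⟨B, hB⟩ : ∃ B : ℤ, B = (b : ℤ) ^ (k * n) := ⟨_, rfl⟩
  obtain ⟨C, hC⟩ : ∃ C : ℤ, C = (c : ℤ) ^ (k * n) := ⟨_, rfl⟩
  have hA0 : 0 < A := by rw [hA]; positivity
  have hB0 : 0 < B := by rw [hB]; positivity
  have hABC : A + B = C := by
    rw [hA, hB, hC]; exact_mod_cast hS.symm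
  have hCB : IsCoprime C B := by
    rw [hC, hB]
    exact (Nat.isCoprime_iff_coprime.2 hbc'.symm).pow
  have hAB : IsCoprime A B := by
    have := (IsCoprime.add_mul_left_left_iff (x := A) (y := B) (z := 1)).1 (by
      rw [mul_one, hABC]; exact hCB)
    exact this
  have hd : ((2 ^ 16 * N : ℕ) : ℤ) ∣ A * B * C := by
    have := Int.natCast_dvd_natCast.2 hdvd
    rw [hA, hB, hC]
    push_cast at this ⊢
    exact this
  have hd2 : (2 : ℤ) ^ 16 ∣ A * B * C := by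
    refine Dvd.dvd.trans ?_ hd
    push_cast
    exact Dvd.intro _ rfl
  obtain ⟨W, hW1, hW2, hW3⟩ := exists_curve hABC hAB hd2
  have hOf : Of A B C W := hW3
  obtain ⟨s1, s2, s3⟩ := hOf.sizes hA0 hB0 hABC
  obtain ⟨t1, t2⟩ := hOf.conductor_le hA0 hB0 hABC
  refine ⟨W, S, t1, hW1, hW2, ?_, ?_, hS1, hS2, ?_, ?_, ?_, ?_⟩
  · -- divisibility
    have h4 : ((2 ^ 16 * N : ℕ) : ℤ) ∣ A * B * C ^ 4 := by
      have : A * B * C ^ 4 = A * B * C * C ^ 3 := by ring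
      rw [this]; exact Dvd.dvd.mul_right hd _
    rcases hW3 with ⟨h1, -⟩ | ⟨h1, -⟩
    · have h5 : ((2 ^ 16 * N : ℕ) : ℤ) ∣ 16 * W.Δ := by rw [h1]; exact (dvd_neg).2 h4
      have h6 : (16 : ℤ) * N ∣ 16 * W.Δ := by
        refine Dvd.dvd.trans ⟨2 ^ 12, ?_⟩ h5
        push_cast; ring
      exact Int.dvd_of_mul_dvd_mul_left (by norm_num) h6
    · have h5 : ((2 ^ 16 * N : ℕ) : ℤ) ∣ 2 ^ 16 * W.Δ := by rw [h1]; exact (dvd_neg).2 h4
      have h6 : (2 ^ 16 : ℤ) * N ∣ 2 ^ 16 * W.Δ := by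
        push_cast at h5; exact h5
      exact Int.dvd_of_mul_dvd_mul_left (by norm_num) h6
  · -- membership
    refine ⟨b ^ k, c ^ k, Nat.pow_pos hb, Nat.pow_lt_pow_left hbc hk.ne',
      Nat.Coprime.pow k k hbc', ?_⟩
    have e1 : ((c ^ k : ℕ) : ℤ) ^ n = C := by rw [hC]; push_cast; rw [← pow_mul]
    have e2 : ((b ^ k : ℕ) : ℤ) ^ n = B := by rw [hB]; push_cast; rw [← pow_mul]
    rw [e1, e2]
    have e3 : C - B = A := by omega
    rw [e3]
    exact hW3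
  · have e : (A * B * C ^ 4 : ℝ) = (a : ℝ) * S * b ^ (k * n) * ((c : ℕ) : ℝ) ^ (4 * (k * n)) := by
      rw [hA, hB, hC]; push_cast; ring
    rw [← e]; exact s1
  · have e : (C : ℝ) ^ 6 = ((c : ℕ) : ℝ) ^ (6 * (k * n)) := by
      rw [hC]; push_cast; ring
    rw [← e]; exact s2
  · have e : (C : ℝ) ^ 6 = ((c : ℕ) : ℝ) ^ (6 * (k * n)) := by
      rw [hC]; push_cast; ring
    rw [← e]; exact s3
  · refine t2.trans ?_
    have h5 : (A * B * C).natAbs = a * S * b ^ (k * n) * c ^ (k * n) := by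
      have : A * B * C = ((a * S * b ^ (k * n) * c ^ (k * n) : ℕ) : ℤ) := by
        rw [hA, hB, hC]; push_cast; ring
      rw [this, Int.natAbs_natCast]
    rw [h5]
    have hc0 : 0 < c := by omega
    calc rad (a * S * b ^ (k * n) * c ^ (k * n)) ≤ rad (a * b * c * S) := by
          apply rad_mono
          intro p hp
          have hpp := Nat.prime_of_mem_primeFactors hp
          have hpd := Nat.dvd_of_mem_primeFactors hp
          rw [Nat.mem_primeFactors]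
          refine ⟨hpp, ?_, by positivity⟩
          rcases (Nat.Prime.dvd_mul hpp).1 hpd with h1 | h1
          · rcases (Nat.Prime.dvd_mul hpp).1 h1 with h2 | h2
            · rcases (Nat.Prime.dvd_mul hpp).1 h2 with h3 | h3
              · exact Dvd.dvd.mul_right (Dvd.dvd.mul_right (Dvd.dvd.mul_right h3 _) _) _
              · exact Dvd.dvd.mul_left h3 _
            · exact Dvd.dvd.mul_right (Dvd.dvd.mul_right
                (Dvd.dvd.mul_left (hpp.dvd_of_dvd_pow h2) _) _) _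
          · exact Dvd.dvd.mul_right (Dvd.dvd.mul_left (hpp.dvd_of_dvd_pow h1) _) _
      _ ≤ rad (a * b * c) * rad S := rad_mul_le (by positivity) hS0.ne'
      _ ≤ rad (a * b * c) * S := Nat.mul_le_mul_left _ (rad_le hS0.ne')

end Pool.Agent.N757.SZ
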