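import Pool.Agent.N757.SZ.Size
import Pool.Agent.N757.SZ.Down

/-!
# The number of curves of the family
-/

set_option autoImplicit false

namespace Pool.Agent.N757.SZ

open Finset

/-- the invariants of the member `(b, c)` -/
def inv (n : ℕ) (t : (ℕ × ℕ) × Bool) : ℤ × ℤ :=
  if t.2 then
    (((t.1.2 : ℤ) ^ n) ^ 2 - 16 * (t.1.2 ^ n - t.1.1 ^ n) * t.1.1 ^ n,
      -(((t.1.2 : ℤ) ^ n - t.1.1 ^ n) * t.1.1 ^ n * ((t.1.2 : ℤ) ^ n) ^ 4) / 16)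
  else
    ((((t.1.2 : ℤ) ^ n) ^ 2 - 16 * (t.1.2 ^ n - t.1.1 ^ n) * t.1.1 ^ n) / 16,
      -(((t.1.2 : ℤ) ^ n - t.1.1 ^ n) * t.1.1 ^ n * ((t.1.2 : ℤ) ^ n) ^ 4) / 2 ^ 16)

theorem count {n : ℕ} (hn : 1 ≤ n) {X : ℝ} (hX : 1 ≤ X) :
    {q : ℤ × ℤ | ∃ W : WeierstrassCurve ℤ, InFamily n W ∧ height W ≤ X ∧
      q = (W.c₄, W.Δ)}.Finite ∧
    ({q : ℤ × ℤ | ∃ W : WeierstrassCurve ℤ, InFamily n W ∧ height W ≤ X ∧
      q = (W.c₄, W.Δ)}.ncard : ℝ) ≤ 18 * X ^ (2 / (5 * (n : ℝ) - 1)) := by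
  have hn1 : (1 : ℝ) ≤ n := by exact_mod_cast hn
  have hden : 0 < 5 * (n : ℝ) - 1 := by linarith
  set B : ℝ := (76 * X) ^ (1 / (5 * (n : ℝ) - 1)) with hB
  have hB1 : 1 ≤ B := Real.one_le_rpow (by linarith) (by positivity)
  set S : Finset ((ℕ × ℕ) × Bool) :=
    ((Finset.Icc 1 ⌊B⌋₊ ×ˢ Finset.Icc 1 ⌊B⌋₊) ×ˢ Finset.univ) with hS
  have hsub : {q : ℤ × ℤ | ∃ W : WeierstrassCurve ℤ, InFamily n W ∧ height W ≤ X ∧
      q = (W.c₄, W.Δ)} ⊆ (S.image (inv n) : Finset (ℤ × ℤ)) := by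
    rintro q ⟨W, ⟨b, c, hb, hbc, -, hW⟩, hH, rfl⟩
    have hc1 : 1 ≤ c := by omega
    -- the size of `c`
    obtain ⟨s, hs⟩ : ∃ s, c = s + b := ⟨c - b, by omega⟩
    have hs0 : 0 < s := by omega
    obtain ⟨T, hT, hT1, -⟩ := exists_S (b := b) hs0 hn
    rw [← hs] at hT hT1
    have hA : (c : ℤ) ^ (n - 1) ≤ (c : ℤ) ^ n - b ^ n := by
      have h1 : c ^ (n - 1) ≤ s * T := hT1.trans (Nat.le_mul_of_pos_left _ hs0)
      have h2 : c ^ (n - 1) + b ^ n ≤ c ^ n := by omega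
      have h3 : (c : ℤ) ^ (n - 1) + (b : ℤ) ^ n ≤ (c : ℤ) ^ n := by exact_mod_cast h2
      linarith
    have hA0 : (0 : ℤ) < (c : ℤ) ^ n - b ^ n := lt_of_lt_of_le (by positivity) hA
    have hB0 : (0 : ℤ) < (b : ℤ) ^ n := by positivity
    have hsz := (Of.sizes hA0 hB0 (sub_add_cancel _ _) (W := W) hW).1
    have hrel : (1728 : ℝ) * W.Δ = (W.c₄ : ℝ) ^ 3 - (W.c₆ : ℝ) ^ 2 := by
      have := W.c_relation
      exact_mod_cast this
    have hΔ : 1728 * |(W.Δ : ℝ)| ≤ 2 * X := by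
      have h1 : |(W.c₄ : ℝ)| ^ 3 ≤ X := (le_max_left _ _).trans hH
      have h2 : (W.c₆ : ℝ) ^ 2 ≤ X := (le_max_right _ _).trans hH
      have h3 : 1728 * |(W.Δ : ℝ)| = |(W.c₄ : ℝ) ^ 3 - (W.c₆ : ℝ) ^ 2| := by
        rw [← hrel, abs_mul]; norm_num
      rw [h3]
      calc |(W.c₄ : ℝ) ^ 3 - (W.c₆ : ℝ) ^ 2| ≤ |(W.c₄ : ℝ) ^ 3| + |(W.c₆ : ℝ) ^ 2| :=
            abs_sub _ _
        _ = |(W.c₄ : ℝ)| ^ 3 + (W.c₆ : ℝ) ^ 2 := by
            rw [abs_pow, abs_of_nonneg (sq_nonneg (W.c₆ : ℝ))]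
        _ ≤ 2 * X := by linarith
    have hcX : (c : ℝ) ^ (5 * n - 1) ≤ 76 * X := by
      have h1 : (c : ℝ) ^ (n - 1) ≤ (c : ℝ) ^ n - b ^ n := by exact_mod_cast hA
      have h2 : (1 : ℝ) ≤ (b : ℝ) ^ n := by
        exact_mod_cast Nat.one_le_pow _ _ hb
      have h3 : (c : ℝ) ^ (5 * n - 1) ≤ ((c : ℝ) ^ n - b ^ n) * b ^ n * ((c : ℝ) ^ n) ^ 4 := by
        have e : (c : ℝ) ^ (5 * n - 1) = (c : ℝ) ^ (n - 1) * 1 * ((c : ℝ) ^ n) ^ 4 := by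
          rw [mul_one, ← pow_mul, ← pow_add]; congr 1; omega
        rw [e]
        gcongr
        exact le_trans (by positivity) h1
      have h4 : (((c : ℝ) ^ n - b ^ n) * b ^ n * ((c : ℝ) ^ n) ^ 4) / 2 ^ 16 ≤
          |(W.Δ : ℝ)| := by
        push_cast at hsz
        exact hsz
      rw [div_le_iff₀ (by norm_num)] at h4
      linarith
    have hcB : (c : ℝ) ≤ B := by
      have e : ((5 * n - 1 : ℕ) : ℝ) = 5 * n - 1 := by
        rw [Nat.cast_sub (by omega)]; push_cast; ring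
      have h1 : (c : ℝ) = ((c : ℝ) ^ (5 * n - 1)) ^ (1 / (5 * (n : ℝ) - 1)) := by
        rw [← Real.rpow_natCast, ← Real.rpow_mul (by positivity), e,
          mul_one_div_cancel hden.ne', Real.rpow_one]
      rw [h1]
      exact Real.rpow_le_rpow (by positivity) hcX (by positivity)
    have hcf : c ≤ ⌊B⌋₊ := Nat.le_floor hcB
    rw [Finset.coe_image, Set.mem_image]
    have hbS : b ∈ Finset.Icc 1 ⌊B⌋₊ := Finset.mem_Icc.2 ⟨hb, by omega⟩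
    have hcS : c ∈ Finset.Icc 1 ⌊B⌋₊ := Finset.mem_Icc.2 ⟨hc1, hcf⟩
    rcases hW with ⟨h1, h2⟩ | ⟨h1, h2⟩
    · refine ⟨((b, c), true), ?_, ?_⟩
      · simp only [hS, Finset.mem_coe, Finset.mem_product, Finset.mem_univ, and_true]
        exact ⟨hbS, hcS⟩
      · simp only [inv, if_true]
        rw [← h1, ← h2, Int.mul_ediv_cancel_left _ (by norm_num)]
    · refine ⟨((b, c), false), ?_, ?_⟩
      · simp only [hS, Finset.mem_coe, Finset.mem_product, Finset.mem_univ, and_true]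
        exact ⟨hbS, hcS⟩
      · simp only [inv, Bool.false_eq_true, if_false]
        rw [← h1, ← h2, Int.mul_ediv_cancel_left _ (by norm_num),
          Int.mul_ediv_cancel_left _ (by norm_num)]
  have hfin := (Finset.finite_toSet (S.image (inv n))).subset hsub
  refine ⟨hfin, ?_⟩
  have h1 : {q : ℤ × ℤ | ∃ W : WeierstrassCurve ℤ, InFamily n W ∧ height W ≤ X ∧
      q = (W.c₄, W.Δ)}.ncard ≤ S.card := by
    refine (Set.ncard_le_ncard hsub (Finset.finite_toSet _)).trans ?_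
    rw [Set.ncard_coe_finset]
    exact Finset.card_image_le
  have h2 : (S.card : ℝ) ≤ 2 * B ^ 2 := by
    have : S.card = ⌊B⌋₊ * ⌊B⌋₊ * 2 := by
      rw [hS, Finset.card_product, Finset.card_product]; simp
    rw [this]
    push_cast
    have h3 : (⌊B⌋₊ : ℝ) ≤ B := Nat.floor_le (by linarith)
    nlinarith [Nat.cast_nonneg (α := ℝ) ⌊B⌋₊]
  have h3 : B ^ 2 ≤ 9 * X ^ (2 / (5 * (n : ℝ) - 1)) := by
    rw [hB, ← Real.rpow_natCast, ← Real.rpow_mul (by linarith)]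
    have e : 1 / (5 * (n : ℝ) - 1) * ((2 : ℕ) : ℝ) = 2 / (5 * (n : ℝ) - 1) := by
      push_cast; ring
    rw [e, Real.mul_rpow (by norm_num) (by linarith)]
    apply mul_le_mul_of_nonneg_right _ (by positivity)
    calc (76 : ℝ) ^ (2 / (5 * (n : ℝ) - 1)) ≤ 76 ^ ((1 : ℝ) / 2) := by
          apply Real.rpow_le_rpow_of_exponent_le (by norm_num)
          rw [div_le_div_iff₀ hden (by norm_num)]
          linarith
      _ ≤ 9 := by
          rw [← Real.sqrt_eq_rpow, Real.sqrt_le_left (by norm_num)]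
          norm_num
  calc ({q : ℤ × ℤ | ∃ W : WeierstrassCurve ℤ, InFamily n W ∧ height W ≤ X ∧
      q = (W.c₄, W.Δ)}.ncard : ℝ) ≤ S.card := by exact_mod_cast h1
    _ ≤ 2 * B ^ 2 := h2
    _ ≤ 2 * (9 * X ^ (2 / (5 * (n : ℝ) - 1))) := by linarith
    _ = 18 * X ^ (2 / (5 * (n : ℝ) - 1)) := by ring

end Pool.Agent.N757.SZ
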