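import Mathlib

/-!
# The curves `y² = x (x² + 2 d (A - B) x + C²)`, `A + B = C`, and their semistable models
-/

set_option autoImplicit false

namespace Pool.Agent.N757.SZ

/-- the global minimal model for `C` odd, `16 ∣ A B`: `m = A B / 16`, `p = ± (A - B) = 4 q - 1` -/
def W1 (q m : ℤ) : WeierstrassCurve ℤ := ⟨1, -q, 0, 4 * m, (1 - 4 * q) * m⟩

/-- the global minimal model for `16 ∣ C`: `C = 16 c`, `± (A - B) / 2 = 4 s + 1` -/
def W2 (s c : ℤ) : WeierstrassCurve ℤ := ⟨1, s, 0, c ^ 2, 0⟩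

theorem W1_c₄ (q m : ℤ) : (W1 q m).c₄ = (4 * q - 1) ^ 2 - 192 * m := by
  simp only [W1, WeierstrassCurve.c₄, WeierstrassCurve.b₂, WeierstrassCurve.b₄]
  ring

theorem W1_Δ (q m : ℤ) : (W1 q m).Δ = -(m * ((4 * q - 1) ^ 2 + 64 * m) ^ 2) := by
  simp only [W1, WeierstrassCurve.Δ, WeierstrassCurve.b₂, WeierstrassCurve.b₄,
    WeierstrassCurve.b₆, WeierstrassCurve.b₈]
  ring

theorem W2_c₄ (s c : ℤ) : (W2 s c).c₄ = (4 * s + 1) ^ 2 - 48 * c ^ 2 := by
  simp only [W2, WeierstrassCurve.c₄, WeierstrassCurve.b₂, WeierstrassCurve.b₄]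
  ring

theorem W2_Δ (s c : ℤ) : (W2 s c).Δ = c ^ 4 * ((4 * s + 1) ^ 2 - 64 * c ^ 2) := by
  simp only [W2, WeierstrassCurve.Δ, WeierstrassCurve.b₂, WeierstrassCurve.b₄,
    WeierstrassCurve.b₆, WeierstrassCurve.b₈]
  ring

/-- there is a rational point of order 2: `4x³ + b₂x² + 2b₄x + b₆` has a rational root -/
def HasTwoTorsion (W : WeierstrassCurve ℤ) : Prop :=
  ∃ r : ℚ, 4 * r ^ 3 + W.b₂ * r ^ 2 + 2 * W.b₄ * r + W.b₆ = 0

theorem W1_two (q m : ℤ) : HasTwoTorsion (W1 q m) := by
  refine ⟨(4 * q - 1) / 4, ?_⟩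
  simp only [W1, WeierstrassCurve.b₂, WeierstrassCurve.b₄, WeierstrassCurve.b₆]
  push_cast
  ring

theorem W2_two (s c : ℤ) : HasTwoTorsion (W2 s c) := by
  refine ⟨0, ?_⟩
  simp only [W2, WeierstrassCurve.b₂, WeierstrassCurve.b₄, WeierstrassCurve.b₆]
  push_cast
  ring

/-- odd integers are `± (4 q - 1)` -/
theorem sign3 {x : ℤ} (hx : x % 2 = 1) : ∃ q : ℤ, (4 * q - 1) ^ 2 = x ^ 2 := by
  have : x % 4 = 1 ∨ x % 4 = 3 := by omega
  rcases this with h | h
  · refine ⟨-(x - 1) / 4, ?_⟩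
    have : 4 * (-(x - 1) / 4) = -(x - 1) := by omega
    rw [this]; ring
  · refine ⟨(x + 1) / 4, ?_⟩
    have : 4 * ((x + 1) / 4) = x + 1 := by omega
    rw [this]; ring

theorem sign1 {x : ℤ} (hx : x % 2 = 1) : ∃ s : ℤ, (4 * s + 1) ^ 2 = x ^ 2 := by
  obtain ⟨q, hq⟩ := sign3 hx
  exact ⟨-q, by rw [← hq]; ring⟩

/-- For coprime `A + B = C` with `2 ^ 16 ∣ A B C` the semistable model of the curve. -/
theorem exists_curve {A B C : ℤ} (h : A + B = C) (hAB : IsCoprime A B)
    (h2 : (2 : ℤ) ^ 16 ∣ A * B * C) :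
    ∃ W : WeierstrassCurve ℤ, IsCoprime W.c₄ W.Δ ∧ HasTwoTorsion W ∧
      (16 * W.Δ = -(A * B * C ^ 4) ∧ W.c₄ = C ^ 2 - 16 * A * B ∨
        2 ^ 16 * W.Δ = -(A * B * C ^ 4) ∧ 16 * W.c₄ = C ^ 2 - 16 * A * B) := by
  have hAC : IsCoprime A C := by
    rw [← h]; exact (IsCoprime.add_mul_left_right_iff (z := 1)).2 hAB |> fun h => by
      simpa [add_comm] using h
  have hBC : IsCoprime B C := by
    rw [← h]
    have := (IsCoprime.add_mul_left_right_iff (x := B) (y := A) (z := 1)).2 hAB.symm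
    simpa [add_comm] using this
  have hABC : IsCoprime (A * B) C := hAC.mul_left hBC
  rcases Int.even_or_odd C with hC | hC
  · -- `C` is even, `A` and `B` are odd
    have hodd : ¬ (2 : ℤ) ∣ A * B := by
      intro h3
      have h4 : (2 : ℤ) ∣ C := hC.two_dvd
      have := hABC.isUnit_of_dvd' h3 h4
      rw [Int.isUnit_iff] at this
      omega
    have hcop : IsCoprime ((2 : ℤ) ^ 16) (A * B) := by
      apply IsCoprime.pow_left
      rw [Int.isCoprime_iff_gcd_eq_one]
      have hp : Nat.Prime 2 := Nat.prime_two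
      have := (Nat.Prime.coprime_iff_not_dvd hp (n := (A * B).natAbs)).2 (by
        intro h5
        exact hodd (by
          have := Int.natCast_dvd.2 h5
          exact_mod_cast this))
      exact this
    have h16 : (2 : ℤ) ^ 16 ∣ C := hcop.dvd_of_dvd_mul_left h2
    obtain ⟨c, hc⟩ : (16 : ℤ) ∣ C := (by norm_num : (16 : ℤ) ∣ 2 ^ 16).trans h16
    have hA2 : A % 2 = 1 := by
      by_contra h3
      exact hodd (Dvd.dvd.mul_right (by omega) _)
    have hx : ((A - B) / 2) % 2 = 1 := by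
      have hB : B = C - A := by linarith
      have : A - B = 2 * (A - 8 * c) := by rw [hB, hc]; ring
      rw [this, Int.mul_ediv_cancel_left _ (by norm_num)]
      omega
    have hx2 : 4 * ((A - B) / 2) ^ 2 = (A - B) ^ 2 := by
      have hB : B = C - A := by linarith
      have : A - B = 2 * (A - 8 * c) := by rw [hB, hc]; ring
      rw [this, Int.mul_ediv_cancel_left _ (by norm_num)]
      ring
    obtain ⟨s, hs⟩ := sign1 hx
    have key : (4 * s + 1) ^ 2 = 64 * c ^ 2 - A * B := by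
      have : 4 * (4 * s + 1) ^ 2 = 4 * (64 * c ^ 2 - A * B) := by
        rw [hs, hx2]
        have hB : B = C - A := by linarith
        rw [hB, hc]; ring
      linarith
    refine ⟨W2 s c, ?_, W2_two s c, Or.inr ⟨?_, ?_⟩⟩
    · rw [W2_c₄, W2_Δ, key]
      have e1 : (64 * c ^ 2 - A * B - 48 * c ^ 2 : ℤ) = 16 * c ^ 2 - A * B := by ring
      have e2 : c ^ 4 * (64 * c ^ 2 - A * B - 64 * c ^ 2) = -(c ^ 4 * (A * B)) := by ring
      rw [e1, e2]
      have hc16 : IsCoprime (A * B) (16 * c) := by rw [← hc]; exact hABC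
      have hABc : IsCoprime (A * B) c := hc16.of_mul_right_right
      have hAB2 : IsCoprime (A * B) (16 * c ^ 2) := by
        have h16' : IsCoprime (A * B) 16 := hc16.of_mul_right_left
        exact h16'.mul_right (hABc.pow_right)
      have k1 : IsCoprime (16 * c ^ 2 - A * B) (A * B) := by
        have := (IsCoprime.add_mul_left_left_iff (x := 16 * c ^ 2) (y := A * B)
          (z := -1)).2 hAB2.symm
        have e : 16 * c ^ 2 + A * B * (-1) = 16 * c ^ 2 - A * B := by ring
        rwa [e] at this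
      have k2 : IsCoprime (16 * c ^ 2 - A * B) c := by
        have h3 : IsCoprime (-(A * B)) c := hABc.neg_left
        have := (IsCoprime.add_mul_left_left_iff (x := -(A * B)) (y := c)
          (z := 16 * c)).2 h3
        have e : -(A * B) + c * (16 * c) = 16 * c ^ 2 - A * B := by ring
        rwa [e] at this
      exact ((k2.pow_right (n := 4)).mul_right k1).neg_right
    · rw [W2_Δ, key, hc]; ring
    · rw [W2_c₄, key, hc]; ring
  · -- `C` is odd
    have h4 : ¬ (2 : ℤ) ∣ C := by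
      obtain ⟨k, hk⟩ := hC
      omega
    have hcop : IsCoprime ((2 : ℤ) ^ 16) C := by
      apply IsCoprime.pow_left
      rw [Int.isCoprime_iff_gcd_eq_one]
      have hp : Nat.Prime 2 := Nat.prime_two
      have := (Nat.Prime.coprime_iff_not_dvd hp (n := C.natAbs)).2 (by
        intro h5
        exact h4 (by
          have := Int.natCast_dvd.2 h5
          exact_mod_cast this))
      exact this
    have h16 : (2 : ℤ) ^ 16 ∣ A * B := hcop.dvd_of_dvd_mul_right h2
    obtain ⟨m, hm⟩ : (16 : ℤ) ∣ A * B := (by norm_num : (16 : ℤ) ∣ 2 ^ 16).trans h16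
    have hm4 : (2 : ℤ) ∣ m := by
      obtain ⟨k, hk⟩ := h16
      rw [hm] at hk
      exact ⟨2 ^ 11 * k, by linarith⟩
    have hx : (A - B) % 2 = 1 := by
      obtain ⟨k, hk⟩ := hC
      omega
    obtain ⟨q, hq⟩ := sign3 hx
    have key : (4 * q - 1) ^ 2 = C ^ 2 - 64 * m := by
      have : (A - B) ^ 2 = C ^ 2 - 4 * (A * B) := by rw [← h]; ring
      rw [hq, this, hm]; ring
    have hmC : IsCoprime m C := by
      have : IsCoprime (16 * m) C := by rw [← hm]; exact hABC
      exact this.of_mul_left_right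
    have h16C : IsCoprime (16 : ℤ) C := by
      have : IsCoprime (16 * m) C := by rw [← hm]; exact hABC
      exact this.of_mul_left_left
    refine ⟨W1 q m, ?_, W1_two q m, Or.inl ⟨?_, ?_⟩⟩
    · rw [W1_c₄, W1_Δ, key]
      have e1 : (C ^ 2 - 64 * m - 192 * m : ℤ) = C ^ 2 - 256 * m := by ring
      have e2 : -(m * (C ^ 2 - 64 * m + 64 * m) ^ 2) = -(m * C ^ 4) := by ring
      rw [e1, e2]
      have k1 : IsCoprime (C ^ 2 - 256 * m) m := by
        have := (IsCoprime.add_mul_left_left_iff (x := C ^ 2) (y := m)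
          (z := -256)).2 (hmC.symm.pow_left)
        have e : C ^ 2 + m * (-256) = C ^ 2 - 256 * m := by ring
        rwa [e] at this
      have k2 : IsCoprime (C ^ 2 - 256 * m) C := by
        have h256 : IsCoprime (-(256 * m)) C := by
          have : IsCoprime (16 * 16 * m : ℤ) C := (h16C.mul_left h16C).mul_left hmC
          have e : (16 * 16 * m : ℤ) = 256 * m := by ring
          rw [e] at this
          exact this.neg_left
        have := (IsCoprime.add_mul_left_left_iff (x := -(256 * m)) (y := C)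
          (z := C)).2 h256
        have e : -(256 * m) + C * C = C ^ 2 - 256 * m := by ring
        rwa [e] at this
      exact (k1.mul_right (k2.pow_right)).neg_right
    · rw [W1_Δ, key, hm]; ring
    · rw [W1_c₄, key]
      have : 16 * A * B = 16 * (A * B) := by ring
      rw [this, hm]; ring

end Pool.Agent.N757.SZ
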