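import Mathlib

/-!
# The radical, and a divisibility for `(c ^ k - b ^ k) b ^ k c ^ k`
-/

set_option autoImplicit false

namespace Pool.Agent.N757.SZ

open Finset

/-- the product of the primes dividing `n` -/
def rad (n : ℕ) : ℕ := ∏ p ∈ n.primeFactors, p

theorem rad_pos (n : ℕ) : 0 < rad n :=
  Finset.prod_pos fun _ hp => (Nat.prime_of_mem_primeFactors hp).pos

theorem rad_dvd (n : ℕ) : rad n ∣ n := Nat.prod_primeFactors_dvd n

theorem rad_le {n : ℕ} (hn : n ≠ 0) : rad n ≤ n := Nat.le_of_dvd (Nat.pos_of_ne_zero hn) (rad_dvd n)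

theorem rad_mono {m n : ℕ} (h : m.primeFactors ⊆ n.primeFactors) : rad m ≤ rad n := by
  apply Nat.le_of_dvd (rad_pos n)
  exact Finset.prod_dvd_prod_of_subset _ _ _ h

theorem rad_mul_le {m n : ℕ} (hm : m ≠ 0) (hn : n ≠ 0) : rad (m * n) ≤ rad m * rad n := by
  unfold rad
  rw [Nat.primeFactors_mul hm hn, ← Finset.prod_union_inter]
  exact Nat.le_mul_of_pos_right _
    (Finset.prod_pos fun p hp => (Nat.prime_of_mem_primeFactors (mem_inter.1 hp).1).pos)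

/-- `M` divides `(c ^ k - b ^ k) b ^ k c ^ k` if `M` and `φ(M)` divide `k`. -/
theorem dvd_key {M k b c : ℕ} (hM : M ∣ k) (hφ : M.totient ∣ k) (hk : 0 < k)
    (hlt : b < c) : M ∣ (c ^ k - b ^ k) * b ^ k * c ^ k := by
  rw [Nat.dvd_iff_prime_pow_dvd_dvd]
  intro p e hp hpe
  have he : e ≤ k := by
    have h1 : e < p ^ e := Nat.lt_pow_self hp.one_lt
    have h2 : p ^ e ≤ k := Nat.le_of_dvd hk (hpe.trans hM)
    omega
  by_cases hb : p ∣ b
  · have : p ^ e ∣ b ^ k := (pow_dvd_pow p he).trans (pow_dvd_pow_of_dvd hb k)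
    exact Dvd.dvd.mul_right (Dvd.dvd.mul_left this _) _
  by_cases hc : p ∣ c
  · have : p ^ e ∣ c ^ k := (pow_dvd_pow p he).trans (pow_dvd_pow_of_dvd hc k)
    exact Dvd.dvd.mul_left this _
  have ht : (p ^ e).totient ∣ k := (Nat.totient_dvd_of_dvd hpe).trans hφ
  have key : ∀ x : ℕ, ¬ p ∣ x → x ^ k ≡ 1 [MOD p ^ e] := by
    intro x hx
    obtain ⟨j, hj⟩ := ht
    rw [hj, pow_mul]
    have : Nat.Coprime x (p ^ e) := (Nat.Coprime.pow_left e ((hp.coprime_iff_not_dvd).2 hx)).symm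
    simpa using (Nat.ModEq.pow_totient this).pow j
  have h3 : b ^ k ≡ c ^ k [MOD p ^ e] := (key b hb).trans (key c hc).symm
  have h4 : p ^ e ∣ c ^ k - b ^ k :=
    (Nat.modEq_iff_dvd' (Nat.pow_le_pow_left hlt.le k)).1 h3
  exact Dvd.dvd.mul_right (Dvd.dvd.mul_right h4 _) _

/-- If `Y ≤ K R ^ s Y ^ η` with `η < 1` then `Y ≤ K' R ^ (s / (1 - η))`. -/
theorem absorb {Y K R s η t : ℝ} (hY : 0 < Y) (hK : 1 ≤ K) (hR : 1 ≤ R) (hη : η < 1)
    (h : Y ≤ K * R ^ s * Y ^ η) (ht : s ≤ t * (1 - η)) :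
    Y ≤ K ^ (1 / (1 - η)) * R ^ t := by
  have hη' : 0 < 1 - η := by linarith
  have hK0 : 0 < K := by linarith
  have hR0 : 0 < R := by linarith
  have h1 : Y ^ (1 - η) ≤ K * R ^ s := by
    rw [Real.rpow_sub hY, Real.rpow_one, div_le_iff₀ (Real.rpow_pos_of_pos hY _)]
    exact h
  have h2 : Y = (Y ^ (1 - η)) ^ (1 / (1 - η)) := by
    rw [← Real.rpow_mul hY.le, mul_one_div_cancel hη'.ne', Real.rpow_one]
  calc Y = (Y ^ (1 - η)) ^ (1 / (1 - η)) := h2
    _ ≤ (K * R ^ s) ^ (1 / (1 - η)) :=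
        Real.rpow_le_rpow (Real.rpow_nonneg hY.le _) h1 (by positivity)
    _ = K ^ (1 / (1 - η)) * R ^ (s * (1 / (1 - η))) := by
        rw [Real.mul_rpow hK0.le (Real.rpow_nonneg hR0.le _), ← Real.rpow_mul hR0.le]
    _ ≤ K ^ (1 / (1 - η)) * R ^ t := by
        apply mul_le_mul_of_nonneg_left _ (Real.rpow_nonneg hK0.le _)
        apply Real.rpow_le_rpow_of_exponent_le hR
        rw [mul_one_div, div_le_iff₀ hη']
        exact ht

end Pool.Agent.N757.SZ
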