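import Pool.Agent.N757.SZ.Curve
import Pool.Agent.N757.SZ.Rad

/-!
# Definitions: Szpiro's inequality with a parameter `θ`, the thin family, the `abc` side
-/

set_option autoImplicit false

namespace Pool.Agent.N757.SZ

open Finset

/-- `max (|c₄|³, c₆²)` -/
noncomputable def height (W : WeierstrassCurve ℤ) : ℝ := max (|(W.c₄ : ℝ)| ^ 3) ((W.c₆ : ℝ) ^ 2)

/-- product of the primes dividing `Δ` -/
def conductor (W : WeierstrassCurve ℤ) : ℕ := ∏ p ∈ W.Δ.natAbs.primeFactors, p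

/-- prime-to-6 part of the conductor of a global minimal equation -/
def conductor6 (W : WeierstrassCurve ℤ) : ℕ :=
  ∏ p ∈ W.Δ.natAbs.primeFactors.filter (fun p => 5 ≤ p), if (p : ℤ) ∣ W.c₄ then p ^ 2 else p

/-- global minimal equations -/
def IsGlobalMinimal (W : WeierstrassCurve ℤ) : Prop :=
  W.Δ ≠ 0 ∧ ∀ W' : WeierstrassCurve ℤ,
    (∃ C : WeierstrassCurve.VariableChange ℚ,
      C • W.map (Int.castRingHom ℚ) = W'.map (Int.castRingHom ℚ)) → |W.Δ| ≤ |W'.Δ|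

/-- the inequality `|Δ| ^ (1 - θ) H ^ θ ≤ K N ^ (6 + ε)` for the class `P` -/
def Sz (θ : ℝ) (N : WeierstrassCurve ℤ → ℕ) (P : WeierstrassCurve ℤ → Prop) : Prop :=
  ∀ ε : ℝ, 0 < ε → ∃ K : ℝ, ∀ W : WeierstrassCurve ℤ, P W →
    |(W.Δ : ℝ)| ^ (1 - θ) * height W ^ θ ≤ K * (N W : ℝ) ^ (6 + ε)

/-- the inequality `(a b c) ^ (1 - θ) c ^ (3 + 3 θ) ≤ K rad (a b c) ^ (6 + ε)` -/
def AbcT (θ : ℝ) : Prop :=
  ∀ ε : ℝ, 0 < ε → ∃ K : ℝ, ∀ a b : ℕ, 0 < a → 0 < b → a.Coprime b →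
    ((a * b * (a + b) : ℕ) : ℝ) ^ (1 - θ) * ((a + b : ℕ) : ℝ) ^ (3 + 3 * θ) ≤
      K * (rad (a * b * (a + b)) : ℝ) ^ (6 + ε)

/-- the family -/
def InFamily (n : ℕ) (W : WeierstrassCurve ℤ) : Prop :=
  ∃ b c : ℕ, 0 < b ∧ b < c ∧ b.Coprime c ∧
    (16 * W.Δ = -(((c : ℤ) ^ n - b ^ n) * b ^ n * ((c : ℤ) ^ n) ^ 4) ∧
      W.c₄ = ((c : ℤ) ^ n) ^ 2 - 16 * (c ^ n - b ^ n) * b ^ n ∨
    2 ^ 16 * W.Δ = -(((c : ℤ) ^ n - b ^ n) * b ^ n * ((c : ℤ) ^ n) ^ 4) ∧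
      16 * W.c₄ = ((c : ℤ) ^ n) ^ 2 - 16 * (c ^ n - b ^ n) * b ^ n)

/-- the semistable curves of the family with a large discriminant divisible by `N` -/
def Thin (κ : ℝ) (n N : ℕ) (W : WeierstrassCurve ℤ) : Prop :=
  W.Δ ≠ 0 ∧ IsCoprime W.c₄ W.Δ ∧ height W ^ κ ≤ |(W.Δ : ℝ)| ∧ HasTwoTorsion W ∧
    (N : ℤ) ∣ W.Δ ∧ InFamily n W

end Pool.Agent.N757.SZ
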