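import Pool.Agent.N757.SZ.Defs

/-!
# Divisibility properties of global minimal equations
-/

set_option autoImplicit false

namespace Pool.Agent.N757.SZ

open Finset

/-- For `u > 6` the invariants of a global minimal equation are not `(u⁴ x, u⁶ y)`. -/
theorem minimal_not_dvd {W : WeierstrassCurve ℤ} (h : IsGlobalMinimal W) {u : ℕ} (hu : 6 < u) :
    ¬ ((u : ℤ) ^ 4 ∣ W.c₄ ∧ (u : ℤ) ^ 6 ∣ W.c₆) := by
  rintro ⟨⟨x, hx⟩, ⟨y, hy⟩⟩
  have hu0 : (u : ℚ) ≠ 0 := by
    have : 0 < u := by omega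
    exact_mod_cast this.ne'
  obtain ⟨hΔ, hmin⟩ := h
  set W' : WeierstrassCurve ℤ := ⟨0, 0, 0, -27 * x, -54 * y⟩ with hW'
  have hx' : (x : ℚ) = (W.c₄ : ℚ) / u ^ 4 := by
    rw [hx]; push_cast; field_simp
  have hy' : (y : ℚ) = (W.c₆ : ℚ) / u ^ 6 := by
    rw [hy]; push_cast; field_simp
  have hiso : ∃ C : WeierstrassCurve.VariableChange ℚ,
      C • W.map (Int.castRingHom ℚ) = W'.map (Int.castRingHom ℚ) := by
    refine ⟨⟨Units.mk0 ((u : ℚ) / 6) (by positivity), -(W.b₂ : ℚ) / 12, -(W.a₁ : ℚ) / 2,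
      -((W.a₃ : ℚ) + (-(W.b₂ : ℚ) / 12) * W.a₁) / 2⟩, ?_⟩
    apply WeierstrassCurve.ext
    · rw [WeierstrassCurve.variableChange_a₁]
      simp only [WeierstrassCurve.map_a₁, eq_intCast, hW', Int.cast_zero]
      ring
    · rw [WeierstrassCurve.variableChange_a₂]
      simp only [WeierstrassCurve.map_a₁, WeierstrassCurve.map_a₂, eq_intCast, hW', Int.cast_zero,
        WeierstrassCurve.b₂]
      push_cast
      ring
    · rw [WeierstrassCurve.variableChange_a₃]
      simp only [WeierstrassCurve.map_a₁, WeierstrassCurve.map_a₃, eq_intCast, hW', Int.cast_zero,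
        WeierstrassCurve.b₂]
      push_cast
      ring
    · rw [WeierstrassCurve.variableChange_a₄]
      simp only [WeierstrassCurve.map_a₁, WeierstrassCurve.map_a₂, WeierstrassCurve.map_a₃,
        WeierstrassCurve.map_a₄, eq_intCast, hW', Units.val_inv_eq_inv_val, Units.val_mk0]
      push_cast
      rw [hx']
      simp only [WeierstrassCurve.c₄, WeierstrassCurve.b₂, WeierstrassCurve.b₄]
      push_cast
      field_simp
      ring
    · rw [WeierstrassCurve.variableChange_a₆]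
      simp only [WeierstrassCurve.map_a₁, WeierstrassCurve.map_a₂, WeierstrassCurve.map_a₃,
        WeierstrassCurve.map_a₄, WeierstrassCurve.map_a₆, eq_intCast, hW',
        Units.val_inv_eq_inv_val, Units.val_mk0]
      push_cast
      rw [hy']
      simp only [WeierstrassCurve.c₆, WeierstrassCurve.b₂, WeierstrassCurve.b₄,
        WeierstrassCurve.b₆]
      push_cast
      field_simp
      ring
  have h1 := hmin W' hiso
  have h2 : W'.Δ * u ^ 12 = 6 ^ 12 * W.Δ := by
    have e1 : W'.Δ = 1259712 * (x ^ 3 - y ^ 2) := by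
      rw [hW']
      simp only [WeierstrassCurve.Δ, WeierstrassCurve.b₂, WeierstrassCurve.b₄,
        WeierstrassCurve.b₆, WeierstrassCurve.b₈]
      ring
    have e2 : 1728 * W.Δ = u ^ 12 * (x ^ 3 - y ^ 2) := by
      rw [W.c_relation, hx, hy]; ring
    rw [e1]
    linear_combination (-1259712 : ℤ) * e2
  have h3 : |W'.Δ| * (u : ℤ) ^ 12 = 6 ^ 12 * |W.Δ| := by
    have := congrArg abs h2
    rw [abs_mul, abs_mul, abs_pow, abs_pow, abs_of_nonneg (Int.natCast_nonneg u)] at this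
    simpa using this
  have h4 : 0 < |W.Δ| := abs_pos.2 hΔ
  have h5 : (6 : ℤ) ^ 12 < (u : ℤ) ^ 12 :=
    pow_lt_pow_left₀ (by exact_mod_cast hu) (by norm_num) (by norm_num)
  nlinarith

/-- semistable integral equations are global minimal ones -/
theorem minimal_of_coprime {W : WeierstrassCurve ℤ} (h0 : W.Δ ≠ 0) (h : IsCoprime W.c₄ W.Δ) :
    IsGlobalMinimal W := by
  refine ⟨h0, ?_⟩
  intro W' hW
  obtain ⟨C, hC⟩ := hW
  have h1 := congrArg WeierstrassCurve.Δ hC
  have h2 := congrArg WeierstrassCurve.c₄ hC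
  rw [WeierstrassCurve.variableChange_Δ, WeierstrassCurve.map_Δ, WeierstrassCurve.map_Δ] at h1
  rw [WeierstrassCurve.variableChange_c₄, WeierstrassCurve.map_c₄, WeierstrassCurve.map_c₄] at h2
  simp only [eq_intCast] at h1 h2
  set v : ℚ := ((C.u⁻¹ : ℚˣ) : ℚ) with hv
  have hv0 : v ≠ 0 := (C.u⁻¹).ne_zero
  have hcop : IsCoprime (v.num) (v.den : ℤ) := v.isCoprime_num_den
  have hs0 : (v.den : ℚ) ≠ 0 := by exact_mod_cast v.den_nz
  have hvd : v * v.den = v.num := Rat.mul_den_eq_num v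
  have e1 : v.num ^ 12 * W.Δ = (v.den : ℤ) ^ 12 * W'.Δ := by
    have : (v.num : ℚ) ^ 12 * (W.Δ : ℚ) = (v.den : ℚ) ^ 12 * (W'.Δ : ℚ) := by
      rw [← h1, ← hvd]; ring
    exact_mod_cast this
  have e2 : v.num ^ 4 * W.c₄ = (v.den : ℤ) ^ 4 * W'.c₄ := by
    have : (v.num : ℚ) ^ 4 * (W.c₄ : ℚ) = (v.den : ℚ) ^ 4 * (W'.c₄ : ℚ) := by
      rw [← h2, ← hvd]; ring
    exact_mod_cast this
  have d1 : (v.den : ℤ) ∣ W.Δ := by
    have : (v.den : ℤ) ^ 12 ∣ W.Δ :=
      (hcop.symm.pow (m := 12) (n := 12)).dvd_of_dvd_mul_left ⟨_, e1⟩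
    exact (dvd_pow_self _ (by norm_num)).trans this
  have d2 : (v.den : ℤ) ∣ W.c₄ := by
    have : (v.den : ℤ) ^ 4 ∣ W.c₄ :=
      (hcop.symm.pow (m := 4) (n := 4)).dvd_of_dvd_mul_left ⟨_, e2⟩
    exact (dvd_pow_self _ (by norm_num)).trans this
  have d3 : IsUnit (v.den : ℤ) := h.isUnit_of_dvd' d2 d1
  have d4 : (v.den : ℤ) = 1 := by
    rcases Int.isUnit_iff.mp d3 with h | h
    · exact h
    · have : (0 : ℤ) ≤ v.den := Int.natCast_nonneg _
      omega
  rw [d4, one_pow, one_mul] at e1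
  rw [← e1, abs_mul, abs_pow]
  have hn0 : v.num ≠ 0 := Rat.num_ne_zero.mpr hv0
  have h5 : 1 ≤ |v.num| := Int.one_le_abs hn0
  have h6 : (1 : ℤ) ≤ |v.num| ^ 12 := one_le_pow₀ h5
  nlinarith [abs_nonneg W.Δ]

/-- `N₆` divides the product of the bad primes for a semistable equation -/
theorem conductor6_le {W : WeierstrassCurve ℤ} (h : IsCoprime W.c₄ W.Δ) :
    conductor6 W ≤ conductor W := by
  have e : conductor6 W = ∏ p ∈ W.Δ.natAbs.primeFactors.filter (fun p => 5 ≤ p), p := by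
    unfold conductor6
    apply Finset.prod_congr rfl
    intro p hp
    rw [if_neg]
    intro hpc
    have hpp := Nat.prime_of_mem_primeFactors (mem_filter.1 hp).1
    have hpd : (p : ℤ) ∣ W.Δ :=
      Int.natCast_dvd.2 (Nat.dvd_of_mem_primeFactors (mem_filter.1 hp).1)
    have := h.isUnit_of_dvd' hpc hpd
    exact (Nat.prime_iff_prime_int.1 hpp).not_isUnit this
  rw [e]
  apply Nat.le_of_dvd
  · exact Finset.prod_pos fun _ hp => (Nat.prime_of_mem_primeFactors hp).pos
  · exact Finset.prod_dvd_prod_of_subset _ _ _ (filter_subset _ _)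

theorem conductor6_pos (W : WeierstrassCurve ℤ) : 0 < conductor6 W := by
  apply Finset.prod_pos
  intro p hp
  have := (Nat.prime_of_mem_primeFactors (mem_filter.1 hp).1).pos
  split_ifs <;> positivity

end Pool.Agent.N757.SZ
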