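import Pool.Agent.N757.SZ.Defs

/-!
# Sizes of the invariants of the curves
-/

set_option autoImplicit false

namespace Pool.Agent.N757.SZ

open Finset

/-- `W` belongs to `A + B = C` -/
def Of (A B C : ℤ) (W : WeierstrassCurve ℤ) : Prop :=
  16 * W.Δ = -(A * B * C ^ 4) ∧ W.c₄ = C ^ 2 - 16 * A * B ∨
    2 ^ 16 * W.Δ = -(A * B * C ^ 4) ∧ 16 * W.c₄ = C ^ 2 - 16 * A * B

theorem real_max {D x C : ℝ} (hC : 0 < C) (hx0 : 0 ≤ x) (hx : x ≤ C ^ 2 / 4)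
    (hD : D = C ^ 2 - 16 * x) :
    C ^ 6 / 8 ≤ max (|D| ^ 3) (D ^ 3 + 108 * x * C ^ 4) ∧
      |D| ^ 3 ≤ 54 * C ^ 6 ∧ D ^ 3 + 108 * x * C ^ 4 ≤ 54 * C ^ 6 := by
  have hC2 : 0 < C ^ 2 := by positivity
  have hC4 : 0 < C ^ 4 := by positivity
  have h1 : D ≤ C ^ 2 := by linarith
  have h2 : -(3 * C ^ 2) ≤ D := by linarith
  have h3 : |D| ≤ 3 * C ^ 2 := abs_le.2 ⟨h2, by linarith⟩
  have h4 : |D| ^ 3 ≤ 27 * C ^ 6 := by
    calc |D| ^ 3 ≤ (3 * C ^ 2) ^ 3 := pow_le_pow_left₀ (abs_nonneg _) h3 3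
      _ = 27 * C ^ 6 := by ring
  have h5 : D ^ 3 ≤ |D| ^ 3 := by
    rw [← abs_pow]; exact le_abs_self _
  have h6 : 108 * x * C ^ 4 ≤ 27 * C ^ 6 := by
    have : x * C ^ 4 ≤ C ^ 2 / 4 * C ^ 4 := mul_le_mul_of_nonneg_right hx hC4.le
    nlinarith
  refine ⟨?_, by nlinarith [show 0 < C ^ 6 by positivity], by linarith⟩
  by_cases hc : 16 * x ≤ C ^ 2 / 2
  · have h7 : C ^ 2 / 2 ≤ D := by linarith
    have h8 : (C ^ 2 / 2) ^ 3 ≤ |D| ^ 3 :=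
      pow_le_pow_left₀ (by positivity) (h7.trans (le_abs_self _)) 3
    refine le_trans (le_of_eq (by ring)) (h8.trans (le_max_left _ _))
  · push Not at hc
    have h7 : C ^ 6 / 8 ≤ 54 * x * C ^ 4 := by
      have : C ^ 2 / 32 * C ^ 4 ≤ x * C ^ 4 := mul_le_mul_of_nonneg_right (by linarith) hC4.le
      nlinarith [show 0 < C ^ 6 by positivity]
    by_cases h8 : 54 * x * C ^ 4 ≤ |D| ^ 3
    · exact h7.trans (h8.trans (le_max_left _ _))
    · push Not at h8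
      have h9 : -(|D| ^ 3) ≤ D ^ 3 := by
        rw [← abs_pow]; exact neg_abs_le _
      refine le_trans ?_ (le_max_right _ _)
      linarith

theorem Of.sizes {A B C : ℤ} (hA : 0 < A) (hB : 0 < B) (h : A + B = C) {W : WeierstrassCurve ℤ}
    (hW : Of A B C W) :
    (A * B * C ^ 4 : ℝ) / 2 ^ 16 ≤ |(W.Δ : ℝ)| ∧ (C : ℝ) ^ 6 / 2 ^ 15 ≤ height W ∧
      height W ≤ 54 * (C : ℝ) ^ 6 := by
  have hA' : (0 : ℝ) < A := by exact_mod_cast hA
  have hB' : (0 : ℝ) < B := by exact_mod_cast hB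
  have hC : (0 : ℝ) < C := by
    have : 0 < C := by omega
    exact_mod_cast this
  have hsum : (A : ℝ) + B = C := by exact_mod_cast h
  have hx0 : (0 : ℝ) ≤ A * B := by positivity
  have hx : (A : ℝ) * B ≤ C ^ 2 / 4 := by
    rw [← hsum]; nlinarith [sq_nonneg ((A : ℝ) - B)]
  obtain ⟨m1, m2, m3⟩ := real_max hC hx0 hx rfl
  have hrel : (W.c₆ : ℝ) ^ 2 = (W.c₄ : ℝ) ^ 3 - 1728 * W.Δ := by
    have := W.c_relation
    have : (1728 : ℝ) * W.Δ = (W.c₄ : ℝ) ^ 3 - (W.c₆ : ℝ) ^ 2 := by exact_mod_cast this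
    linarith
  have hP : (0 : ℝ) < A * B * C ^ 4 := by positivity
  rcases hW with ⟨h1, h2⟩ | ⟨h1, h2⟩
  · have e1 : (16 : ℝ) * W.Δ = -(A * B * C ^ 4) := by exact_mod_cast h1
    have e2 : (W.c₄ : ℝ) = (C : ℝ) ^ 2 - 16 * (A * B) := by
      have : (W.c₄ : ℝ) = (C : ℝ) ^ 2 - 16 * A * B := by exact_mod_cast h2
      rw [this]; ring
    have e3 : (W.c₆ : ℝ) ^ 2 = ((C : ℝ) ^ 2 - 16 * (A * B)) ^ 3 + 108 * (A * B) * C ^ 4 := by
      rw [hrel, e2]; linarith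
    have e4 : |(W.Δ : ℝ)| = A * B * C ^ 4 / 16 := by
      have : (W.Δ : ℝ) = -(A * B * C ^ 4 / 16) := by linarith
      rw [this, abs_neg, abs_of_pos (by positivity)]
    refine ⟨?_, ?_, ?_⟩
    · rw [e4]; linarith
    · unfold height
      rw [e3, e2]
      refine le_trans ?_ m1
      nlinarith [show 0 < (C : ℝ) ^ 6 by positivity]
    · unfold height
      rw [e3, e2]
      exact max_le m2 m3
  · have e1 : (2 ^ 16 : ℝ) * W.Δ = -(A * B * C ^ 4) := by exact_mod_cast h1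
    have e2 : (W.c₄ : ℝ) = ((C : ℝ) ^ 2 - 16 * (A * B)) / 16 := by
      have : (16 : ℝ) * (W.c₄ : ℝ) = (C : ℝ) ^ 2 - 16 * A * B := by exact_mod_cast h2
      linarith
    have e3 : (W.c₆ : ℝ) ^ 2 =
        (((C : ℝ) ^ 2 - 16 * (A * B)) ^ 3 + 108 * (A * B) * C ^ 4) / 4096 := by
      rw [hrel, e2]; linarith
    have e4 : |(W.Δ : ℝ)| = A * B * C ^ 4 / 2 ^ 16 := by
      have : (W.Δ : ℝ) = -(A * B * C ^ 4 / 2 ^ 16) := by linarith
      rw [this, abs_neg, abs_of_pos (by positivity)]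
    have e5 : |(W.c₄ : ℝ)| ^ 3 = |(C : ℝ) ^ 2 - 16 * (A * B)| ^ 3 / 4096 := by
      rw [e2, abs_div, div_pow, abs_of_pos (show (0 : ℝ) < 16 by norm_num)]
      norm_num
    have e6 : height W = max (|(C : ℝ) ^ 2 - 16 * (A * B)| ^ 3)
        (((C : ℝ) ^ 2 - 16 * (A * B)) ^ 3 + 108 * (A * B) * C ^ 4) / 4096 := by
      unfold height
      rw [e3, e5, max_div_div_right (by norm_num)]
    refine ⟨by rw [e4], ?_, ?_⟩
    · rw [e6]
      rw [le_div_iff₀ (by norm_num)]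
      refine le_trans (le_of_eq ?_) m1
      ring
    · rw [e6, div_le_iff₀ (by norm_num)]
      have : max (|(C : ℝ) ^ 2 - 16 * (A * B)| ^ 3)
        (((C : ℝ) ^ 2 - 16 * (A * B)) ^ 3 + 108 * (A * B) * C ^ 4) ≤ 54 * (C : ℝ) ^ 6 :=
        max_le m2 m3
      nlinarith [show 0 < (C : ℝ) ^ 6 by positivity]

/-- the primes of bad reduction divide `A B C` -/
theorem Of.conductor_le {A B C : ℤ} (hA : 0 < A) (hB : 0 < B) (h : A + B = C)
    {W : WeierstrassCurve ℤ} (hW : Of A B C W) :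
    W.Δ ≠ 0 ∧ conductor W ≤ rad (A * B * C).natAbs := by
  have hC : 0 < C := by omega
  have hP : 0 < A * B * C ^ 4 := by positivity
  have hP' : A * B * C ≠ 0 := by positivity
  have hD : W.Δ ≠ 0 := by
    intro h0
    rcases hW with ⟨h1, -⟩ | ⟨h1, -⟩ <;> rw [h0] at h1 <;> omega
  refine ⟨hD, rad_mono ?_⟩
  intro p hp
  have hpp := Nat.prime_of_mem_primeFactors hp
  have hpd : (p : ℤ) ∣ W.Δ := Int.natCast_dvd.2 (Nat.dvd_of_mem_primeFactors hp)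
  rw [Nat.mem_primeFactors]
  refine ⟨hpp, ?_, by simpa using hP'⟩
  have h2 : (p : ℤ) ∣ A * B * C ^ 4 := by
    rw [← dvd_neg]
    rcases hW with ⟨h1, -⟩ | ⟨h1, -⟩ <;> rw [← h1] <;> exact Dvd.dvd.mul_left hpd _
  have hpi : Prime (p : ℤ) := Nat.prime_iff_prime_int.1 hpp
  have h3 : (p : ℤ) ∣ A * B * C := by
    rcases hpi.dvd_or_dvd h2 with h3 | h3
    · exact Dvd.dvd.mul_right h3 _
    · exact Dvd.dvd.mul_left (hpi.dvd_of_dvd_pow h3) _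
  exact Int.natCast_dvd.1 h3

end Pool.Agent.N757.SZ
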