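import Pool.Agent.N757.SZ.Val

/-!
# From the `abc` side to all elliptic curves
-/

set_option autoImplicit false

namespace Pool.Agent.N757.SZ

open Finset

/-- the symmetric form of `AbcT` -/
theorem AbcT.sym {θ : ℝ} (h : AbcT θ) {δ : ℝ} (hδ : 0 < δ) :
    ∃ K : ℝ, 1 ≤ K ∧ ∀ X Y Z : ℕ, 0 < X → 0 < Y → 0 < Z → X.Coprime Y →
      (X = Y + Z ∨ Y = X + Z ∨ Z = X + Y) →
      ((X : ℝ) * Y * Z) ^ (1 - θ) * (max (max (X : ℝ) Y) Z) ^ (3 + 3 * θ) ≤
        K * (rad (X * Y * Z) : ℝ) ^ (6 + δ) := by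
  obtain ⟨K, hK⟩ := h δ hδ
  refine ⟨max K 1, le_max_right _ _, fun X Y Z hX hY hZ hc hs => ?_⟩
  have hr : (0 : ℝ) ≤ (rad (X * Y * Z) : ℝ) ^ (6 + δ) := by positivity
  rcases hs with hs | hs | hs
  · have h1 : Y.Coprime Z := by
      rw [hs, Nat.coprime_comm] at hc; simpa using hc
    have h2 := hK Y Z hY hZ h1
    rw [← hs] at h2
    have e1 : Y * Z * X = X * Y * Z := by ring
    rw [e1] at h2
    have e2 : max (max (X : ℝ) Y) Z = X := by
      have a1 : (Y : ℝ) ≤ X := by exact_mod_cast (by omega : Y ≤ X)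
      have a2 : (Z : ℝ) ≤ X := by exact_mod_cast (by omega : Z ≤ X)
      rw [max_eq_left a1, max_eq_left a2]
    rw [e2]
    push_cast at h2
    exact h2.trans (mul_le_mul_of_nonneg_right (le_max_left _ _) hr)
  · have h1 : X.Coprime Z := by
      rw [hs] at hc; simpa using hc
    have h2 := hK X Z hX hZ h1
    rw [← hs] at h2
    have e1 : X * Z * Y = X * Y * Z := by ring
    rw [e1] at h2
    have e2 : max (max (X : ℝ) Y) Z = Y := by
      have a1 : (X : ℝ) ≤ Y := by exact_mod_cast (by omega : X ≤ Y)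
      have a2 : (Z : ℝ) ≤ Y := by exact_mod_cast (by omega : Z ≤ Y)
      rw [max_eq_right a1, max_eq_left a2]
    rw [e2]
    push_cast at h2
    exact h2.trans (mul_le_mul_of_nonneg_right (le_max_left _ _) hr)
  · have h2 := hK X Y hX hY hc
    rw [← hs] at h2
    have e2 : max (max (X : ℝ) Y) Z = Z := by
      have a1 : (X : ℝ) ≤ Z := by exact_mod_cast (by omega : X ≤ Z)
      have a2 : (Y : ℝ) ≤ Z := by exact_mod_cast (by omega : Y ≤ Z)
      exact max_eq_right (max_le a1 a2)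
    rw [e2]
    push_cast at h2
    exact h2.trans (mul_le_mul_of_nonneg_right (le_max_left _ _) hr)

/-- the real inequality -/
theorem est_up {θ δ g X Y Z M K N R D H : ℝ} (hθ0 : 0 ≤ θ) (hθ1 : θ ≤ 1) (hδ : 0 < δ)
    (hg : 1 ≤ g) (hX : 1 ≤ X) (hY : 1 ≤ Y) (hZ : 1 ≤ Z) (hXM : X ≤ M) (hYM : Y ≤ M)
    (hK : 1 ≤ K) (hR : 1 ≤ R)
    (h1 : (X * Y * Z) ^ (1 - θ) * M ^ (3 + 3 * θ) ≤ K * R ^ (6 + δ))
    (h2 : g * R ^ 6 ≤ 30 ^ 40 * N ^ 6 * (X ^ 2 * Y ^ 3))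
    (hRM : R ≤ (2 * H) ^ 3) (hH0 : 0 < H) (hD0 : 0 ≤ D) (hD : D ≤ g * Z)
    (hH : H ≤ g * M) :
    D ^ (1 - θ) * H ^ θ ≤ K * 30 ^ 40 * N ^ 6 * (2 * H) ^ (3 * δ) := by
  have hg0 : 0 < g := by linarith
  have hX0 : 0 < X := by linarith
  have hY0 : 0 < Y := by linarith
  have hZ0 : 0 < Z := by linarith
  have hM0 : 0 < M := by linarith
  have hR0 : 0 < R := by linarith
  have s1 : D ^ (1 - θ) * H ^ θ ≤ g * (Z ^ (1 - θ) * M ^ θ) := by
    calc D ^ (1 - θ) * H ^ θ ≤ (g * Z) ^ (1 - θ) * (g * M) ^ θ := by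
          apply mul_le_mul (Real.rpow_le_rpow hD0 hD (by linarith))
            (Real.rpow_le_rpow hH0.le hH hθ0) (by positivity) (by positivity)
      _ = (g ^ (1 - θ) * g ^ θ) * (Z ^ (1 - θ) * M ^ θ) := by
          rw [Real.mul_rpow hg0.le hZ0.le, Real.mul_rpow hg0.le hM0.le]; ring
      _ = g * (Z ^ (1 - θ) * M ^ θ) := by
          rw [← Real.rpow_add hg0, sub_add_cancel, Real.rpow_one]
  have s2 : Z ^ (1 - θ) * M ^ θ * (X ^ 2 * Y ^ 3) ≤ (X * Y * Z) ^ (1 - θ) * M ^ (3 + 3 * θ) := by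
    have e1 : X ^ 2 = X ^ (1 - θ) * X ^ (1 + θ) := by
      rw [← Real.rpow_add hX0, ← Real.rpow_natCast]; congr 1; push_cast; ring
    have e2 : Y ^ 3 = Y ^ (1 - θ) * Y ^ (2 + θ) := by
      rw [← Real.rpow_add hY0, ← Real.rpow_natCast]; congr 1; push_cast; ring
    have e3 : M ^ (3 + 3 * θ) = M ^ θ * (M ^ (1 + θ) * M ^ (2 + θ)) := by
      rw [← Real.rpow_add hM0, ← Real.rpow_add hM0]; congr 1; ring
    have i1 : X ^ (1 + θ) ≤ M ^ (1 + θ) := Real.rpow_le_rpow hX0.le hXM (by linarith)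
    have i2 : Y ^ (2 + θ) ≤ M ^ (2 + θ) := Real.rpow_le_rpow hY0.le hYM (by linarith)
    rw [Real.mul_rpow (by positivity) hZ0.le, Real.mul_rpow hX0.le hY0.le, e1, e2, e3]
    calc Z ^ (1 - θ) * M ^ θ * (X ^ (1 - θ) * X ^ (1 + θ) * (Y ^ (1 - θ) * Y ^ (2 + θ)))
        = (X ^ (1 - θ) * Y ^ (1 - θ) * Z ^ (1 - θ)) * (M ^ θ * (X ^ (1 + θ) * Y ^ (2 + θ))) := by
          ring
      _ ≤ (X ^ (1 - θ) * Y ^ (1 - θ) * Z ^ (1 - θ)) * (M ^ θ * (M ^ (1 + θ) * M ^ (2 + θ))) := by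
          gcongr
  have s3 : R ^ (6 + δ) = R ^ 6 * R ^ δ := by
    rw [Real.rpow_add hR0, ← Real.rpow_natCast R 6]; norm_num
  have s4 : R ^ δ ≤ (2 * H) ^ (3 * δ) := by
    calc R ^ δ ≤ ((2 * H) ^ 3) ^ δ := Real.rpow_le_rpow hR0.le hRM hδ.le
      _ = (2 * H) ^ (3 * δ) := by
        rw [← Real.rpow_natCast (2 * H) 3, ← Real.rpow_mul (by positivity)]; norm_num
  have s5 : g * (Z ^ (1 - θ) * M ^ θ) * (X ^ 2 * Y ^ 3) ≤
      K * 30 ^ 40 * N ^ 6 * (2 * H) ^ (3 * δ) * (X ^ 2 * Y ^ 3) := by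
    calc g * (Z ^ (1 - θ) * M ^ θ) * (X ^ 2 * Y ^ 3)
        = g * (Z ^ (1 - θ) * M ^ θ * (X ^ 2 * Y ^ 3)) := by ring
      _ ≤ g * (K * R ^ (6 + δ)) := mul_le_mul_of_nonneg_left (s2.trans h1) hg0.le
      _ = K * (g * R ^ 6) * R ^ δ := by rw [s3]; ring
      _ ≤ K * (30 ^ 40 * N ^ 6 * (X ^ 2 * Y ^ 3)) * (2 * H) ^ (3 * δ) := by
          gcongr
      _ = _ := by ring
  exact s1.trans (le_of_mul_le_mul_right s5 (by positivity))

theorem rel_cases {x y z : ℤ} (hr : 1728 * z = x ^ 3 - y ^ 2) (hz : z ≠ 0) :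
    (x.natAbs ^ 3 = y.natAbs ^ 2 + 1728 * z.natAbs) ∨
      (y.natAbs ^ 2 = x.natAbs ^ 3 + 1728 * z.natAbs) ∨
      (1728 * z.natAbs = x.natAbs ^ 3 + y.natAbs ^ 2) := by
  have hx := Int.natAbs_eq x
  have hzz := Int.natAbs_eq z
  have hy : y ^ 2 = (y.natAbs : ℤ) ^ 2 := by rw [Int.natCast_natAbs, sq_abs]
  have hz0 : z.natAbs ≠ 0 := Int.natAbs_ne_zero.2 hz
  rw [hy] at hr
  generalize x.natAbs = a at *
  generalize y.natAbs = b at *
  generalize z.natAbs = c at *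
  have hc : (0 : ℤ) < c := by exact_mod_cast Nat.pos_of_ne_zero hz0
  rcases hx with hx | hx <;> rcases hzz with hzz | hzz <;> rw [hx, hzz] at hr
  · left
    zify
    linarith
  · right; left
    zify
    linarith
  · exfalso
    have h1 : (-(a : ℤ)) ^ 3 = -((a : ℤ) ^ 3) := by ring
    rw [h1] at hr
    have h2 : (0 : ℤ) ≤ (a : ℤ) ^ 3 := by positivity
    have h3 : (0 : ℤ) ≤ (b : ℤ) ^ 2 := by positivity
    linarith
  · right; right
    zify
    have h1 : (-(a : ℤ)) ^ 3 = -((a : ℤ) ^ 3) := by ring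
    rw [h1] at hr
    linarith

/-- **All elliptic curves.** -/
theorem all_curves {θ : ℝ} (hθ0 : 0 ≤ θ) (hθ1 : θ ≤ 1) (h : AbcT θ) {δ : ℝ} (hδ : 0 < δ) :
    ∃ K : ℝ, 1 ≤ K ∧ ∀ W : WeierstrassCurve ℤ, IsGlobalMinimal W → 1 ≤ height W ∧
      |(W.Δ : ℝ)| ^ (1 - θ) * height W ^ θ ≤
        K * (conductor6 W : ℝ) ^ 6 * (2 * height W) ^ (3 * δ) := by
  obtain ⟨K, hK1, hK⟩ := h.sym hδ
  refine ⟨1728 * (K * 30 ^ 40), by nlinarith, fun W hW => ?_⟩
  have hN1 : (1 : ℝ) ≤ conductor6 W := by exact_mod_cast conductor6_pos W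
  have hrel : (1728 : ℝ) * W.Δ = (W.c₄ : ℝ) ^ 3 - (W.c₆ : ℝ) ^ 2 := by
    have := W.c_relation
    exact_mod_cast this
  have hΔ0 : (W.Δ : ℝ) ≠ 0 := by exact_mod_cast hW.1
  have hΔ1 : 1 ≤ |(W.Δ : ℝ)| := by
    have : 1 ≤ |W.Δ| := Int.one_le_abs hW.1
    exact_mod_cast this
  have hΔD : |(W.Δ : ℝ)| = (W.Δ.natAbs : ℝ) := by
    rw [Nat.cast_natAbs]; push_cast; rfl
  -- the degenerate cases
  have deg : height W = 1728 * |(W.Δ : ℝ)| → W.Δ.natAbs ∣ 30 ^ 40 * conductor6 W ^ 6 →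
      1 ≤ height W ∧ |(W.Δ : ℝ)| ^ (1 - θ) * height W ^ θ ≤
        1728 * (K * 30 ^ 40) * (conductor6 W : ℝ) ^ 6 * (2 * height W) ^ (3 * δ) := by
    intro h1 h2
    have hH1 : 1 ≤ height W := by rw [h1]; linarith
    have h3 : |(W.Δ : ℝ)| ≤ 30 ^ 40 * (conductor6 W : ℝ) ^ 6 := by
      rw [hΔD]
      exact_mod_cast Nat.le_of_dvd (by have := conductor6_pos W; positivity) h2
    refine ⟨hH1, ?_⟩
    have h4 : |(W.Δ : ℝ)| ^ (1 - θ) * height W ^ θ ≤ 1728 * |(W.Δ : ℝ)| := by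
      rw [h1, Real.mul_rpow (by norm_num) (by linarith)]
      have h5 : (1728 : ℝ) ^ θ ≤ 1728 := by
        calc (1728 : ℝ) ^ θ ≤ 1728 ^ (1 : ℝ) :=
              Real.rpow_le_rpow_of_exponent_le (by norm_num) hθ1
          _ = 1728 := Real.rpow_one _
      calc |(W.Δ : ℝ)| ^ (1 - θ) * (1728 ^ θ * |(W.Δ : ℝ)| ^ θ)
          = 1728 ^ θ * (|(W.Δ : ℝ)| ^ (1 - θ) * |(W.Δ : ℝ)| ^ θ) := by ring
        _ = 1728 ^ θ * |(W.Δ : ℝ)| := by
            rw [← Real.rpow_add (by linarith), sub_add_cancel, Real.rpow_one]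
        _ ≤ 1728 * |(W.Δ : ℝ)| := mul_le_mul_of_nonneg_right h5 (by linarith)
    have h6 : (1 : ℝ) ≤ (2 * height W) ^ (3 * δ) :=
      Real.one_le_rpow (by linarith) (by positivity)
    calc |(W.Δ : ℝ)| ^ (1 - θ) * height W ^ θ ≤ 1728 * |(W.Δ : ℝ)| := h4
      _ ≤ 1728 * (30 ^ 40 * (conductor6 W : ℝ) ^ 6) := by linarith
      _ = 1728 * (1 * 30 ^ 40) * (conductor6 W : ℝ) ^ 6 * 1 := by ring
      _ ≤ 1728 * (K * 30 ^ 40) * (conductor6 W : ℝ) ^ 6 * (2 * height W) ^ (3 * δ) := by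
          gcongr
  by_cases h4 : W.c₄ = 0
  · apply deg _ (dvd_c4 hW h4)
    unfold height
    rw [h4] at hrel
    have e : (W.c₆ : ℝ) ^ 2 = 1728 * |(W.Δ : ℝ)| := by
      have h1 : (W.Δ : ℝ) ≤ 0 := by
        push_cast at hrel
        nlinarith [sq_nonneg (W.c₆ : ℝ)]
      rw [abs_of_nonpos h1]
      push_cast at hrel
      linarith
    rw [e, h4]
    simp
  by_cases h6 : W.c₆ = 0
  · apply deg _ (dvd_c6 hW h6)
    unfold height
    rw [h6] at hrel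
    have e : |(W.c₄ : ℝ)| ^ 3 = 1728 * |(W.Δ : ℝ)| := by
      rw [← abs_pow]
      have : (W.c₄ : ℝ) ^ 3 = 1728 * W.Δ := by push_cast at hrel; linarith
      rw [this, abs_mul]
      norm_num
    rw [e, h6]
    simp
  -- the main case
  have hA : W.c₄.natAbs ≠ 0 := Int.natAbs_ne_zero.2 h4
  have hB : W.c₆.natAbs ≠ 0 := Int.natAbs_ne_zero.2 h6
  have hD : W.Δ.natAbs ≠ 0 := Int.natAbs_ne_zero.2 hW.1
  set g := Nat.gcd (W.c₄.natAbs ^ 3) (W.c₆.natAbs ^ 2) with hg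
  have hg0 : 0 < g := Nat.gcd_pos_of_pos_left _ (by positivity)
  obtain ⟨X, hX⟩ := Nat.gcd_dvd_left (W.c₄.natAbs ^ 3) (W.c₆.natAbs ^ 2)
  obtain ⟨Y, hY⟩ := Nat.gcd_dvd_right (W.c₄.natAbs ^ 3) (W.c₆.natAbs ^ 2)
  rw [← hg] at hX hY
  have hX0 : 0 < X := Nat.pos_of_ne_zero (by
    rintro rfl; rw [mul_zero] at hX; exact hA (by simpa using hX))
  have hY0 : 0 < Y := Nat.pos_of_ne_zero (by
    rintro rfl; rw [mul_zero] at hY; exact hB (by simpa using hY))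
  have hcop : X.Coprime Y := by
    have h1 := Nat.coprime_div_gcd_div_gcd (m := W.c₄.natAbs ^ 3) (n := W.c₆.natAbs ^ 2)
      (by rw [← hg]; exact hg0)
    rw [← hg, hX, hY, Nat.mul_div_cancel_left _ hg0, Nat.mul_div_cancel_left _ hg0] at h1
    exact h1
  -- the relation
  have hrelN : (g * X = g * Y + 1728 * W.Δ.natAbs) ∨ (g * Y = g * X + 1728 * W.Δ.natAbs) ∨
      (1728 * W.Δ.natAbs = g * X + g * Y) := by
    rw [← hX, ← hY]
    exact rel_cases W.c_relation hW.1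
  obtain ⟨Z, hZ⟩ : g ∣ 1728 * W.Δ.natAbs := by
    rcases hrelN with h1 | h1 | h1
    · exact (Nat.dvd_add_right (Dvd.intro _ rfl)).1 (h1 ▸ Dvd.intro _ rfl)
    · exact (Nat.dvd_add_right (Dvd.intro _ rfl)).1 (h1 ▸ Dvd.intro _ rfl)
    · rw [h1]; exact Dvd.dvd.add (Dvd.intro _ rfl) (Dvd.intro _ rfl)
  have hZ0 : 0 < Z := Nat.pos_of_ne_zero (by
    rintro rfl; rw [mul_zero] at hZ; exact hD (by simpa using hZ))
  have hsum : X = Y + Z ∨ Y = X + Z ∨ Z = X + Y := by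
    rw [hZ] at hrelN
    rcases hrelN with h1 | h1 | h1
    · left
      rw [← mul_add] at h1
      exact Nat.eq_of_mul_eq_mul_left hg0 h1
    · right; left
      rw [← mul_add] at h1
      exact Nat.eq_of_mul_eq_mul_left hg0 h1
    · right; right
      rw [← mul_add] at h1
      exact Nat.eq_of_mul_eq_mul_left hg0 h1
  have hkey := hK X Y Z hX0 hY0 hZ0 hcop hsum
  have hdvd := dvd_main hW h4 h6 hg hX hY hZ
  have hle : g * rad (X * Y * Z) ^ 6 ≤ 30 ^ 40 * conductor6 W ^ 6 * (X ^ 2 * Y ^ 3) :=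
    Nat.le_of_dvd (by have := conductor6_pos W; positivity) hdvd
  -- sizes
  have hg1 : (1 : ℝ) ≤ g := by exact_mod_cast hg0
  have hX1 : (1 : ℝ) ≤ X := by exact_mod_cast hX0
  have hY1 : (1 : ℝ) ≤ Y := by exact_mod_cast hY0
  have hZ1 : (1 : ℝ) ≤ Z := by exact_mod_cast hZ0
  have eX : |(W.c₄ : ℝ)| ^ 3 = g * X := by
    have : |(W.c₄ : ℝ)| = (W.c₄.natAbs : ℝ) := by rw [Nat.cast_natAbs]; push_cast; rfl
    rw [this]; exact_mod_cast hX
  have eY : (W.c₆ : ℝ) ^ 2 = g * Y := by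
    have : |(W.c₆ : ℝ)| = (W.c₆.natAbs : ℝ) := by rw [Nat.cast_natAbs]; push_cast; rfl
    rw [← sq_abs, this]; exact_mod_cast hY
  have eZ : 1728 * |(W.Δ : ℝ)| = g * Z := by
    rw [hΔD]; exact_mod_cast hZ
  have hHX : (g : ℝ) * X ≤ height W := by rw [← eX]; exact le_max_left _ _
  have hHY : (g : ℝ) * Y ≤ height W := by rw [← eY]; exact le_max_right _ _
  have hXH : (X : ℝ) ≤ height W := le_trans (le_mul_of_one_le_left (by linarith) hg1) hHX
  have hYH : (Y : ℝ) ≤ height W := le_trans (le_mul_of_one_le_left (by linarith) hg1) hHY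
  have hZH : (Z : ℝ) ≤ 2 * height W := by
    have : (Z : ℝ) ≤ X + Y := by exact_mod_cast (by omega : Z ≤ X + Y)
    linarith
  have hH1 : 1 ≤ height W := hX1.trans hXH
  refine ⟨hH1, ?_⟩
  set M : ℝ := max (max (X : ℝ) Y) Z with hM
  have hXM : (X : ℝ) ≤ M := (le_max_left _ _).trans (le_max_left _ _)
  have hYM : (Y : ℝ) ≤ M := (le_max_right _ _).trans (le_max_left _ _)
  have hMH : height W ≤ g * M := by
    unfold height
    rw [eX, eY]
    exact max_le (mul_le_mul_of_nonneg_left hXM (by linarith))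
      (mul_le_mul_of_nonneg_left hYM (by linarith))
  have hRM : (rad (X * Y * Z) : ℝ) ≤ (2 * height W) ^ 3 := by
    have h1 : (rad (X * Y * Z) : ℝ) ≤ (X : ℝ) * Y * Z := by
      exact_mod_cast rad_le (by positivity)
    refine h1.trans ?_
    have : (X : ℝ) * Y * Z ≤ (2 * height W) * (2 * height W) * (2 * height W) := by
      have a1 : (X : ℝ) ≤ 2 * height W := by linarith
      have a2 : (Y : ℝ) ≤ 2 * height W := by linarith
      gcongr
    calc (X : ℝ) * Y * Z ≤ (2 * height W) * (2 * height W) * (2 * height W) := this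
      _ = (2 * height W) ^ 3 := by ring
  have hfin := est_up (N := (conductor6 W : ℝ)) (D := |(W.Δ : ℝ)|) (H := height W)
    (R := (rad (X * Y * Z) : ℝ)) hθ0 hθ1 hδ hg1 hX1 hY1 hZ1 hXM hYM hK1
    (by exact_mod_cast rad_pos _) hkey (by exact_mod_cast hle) hRM (by linarith)
    (by linarith) (by linarith) hMH
  refine hfin.trans ?_
  have hpos : 0 ≤ (conductor6 W : ℝ) ^ 6 * (2 * height W) ^ (3 * δ) := by positivity
  calc K * 30 ^ 40 * (conductor6 W : ℝ) ^ 6 * (2 * height W) ^ (3 * δ)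
      = (K * 30 ^ 40) * ((conductor6 W : ℝ) ^ 6 * (2 * height W) ^ (3 * δ)) := by ring
    _ ≤ 1728 * (K * 30 ^ 40) * ((conductor6 W : ℝ) ^ 6 * (2 * height W) ^ (3 * δ)) := by
        apply mul_le_mul_of_nonneg_right _ hpos
        nlinarith
    _ = _ := by ring

theorem height_one {W : WeierstrassCurve ℤ} (h : W.Δ ≠ 0) : 1 ≤ height W := by
  by_cases h4 : W.c₄ = 0
  · have h6 : W.c₆ ≠ 0 := by
      intro h6
      have := W.c_relation
      rw [h4, h6] at this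
      apply h; omega
    have h1 : (1 : ℝ) ≤ (W.c₆ : ℝ) ^ 2 := by
      have : (1 : ℤ) ≤ W.c₆ ^ 2 := by
        have := sq_pos_of_ne_zero h6
        omega
      exact_mod_cast this
    exact h1.trans (le_max_right _ _)
  · have h1 : (1 : ℝ) ≤ |(W.c₄ : ℝ)| := by
      have : 1 ≤ |W.c₄| := Int.one_le_abs h4
      exact_mod_cast this
    exact (one_le_pow₀ h1).trans (le_max_left _ _)

/-- the inequality for all curves, up to small powers of the height -/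
def AllCurves (θ : ℝ) : Prop :=
  ∀ δ : ℝ, 0 < δ → ∃ K : ℝ, ∀ W : WeierstrassCurve ℤ, IsGlobalMinimal W →
    |(W.Δ : ℝ)| ^ (1 - θ) * height W ^ θ ≤ K * (conductor6 W : ℝ) ^ 6 * height W ^ δ

theorem AbcT.all {θ : ℝ} (hθ0 : 0 ≤ θ) (hθ1 : θ ≤ 1) (h : AbcT θ) : AllCurves θ := by
  intro δ hδ
  obtain ⟨K, hK1, hK⟩ := all_curves hθ0 hθ1 h (δ := δ / 3) (by positivity)
  refine ⟨K * 2 ^ δ, fun W hW => ?_⟩
  obtain ⟨hH1, hb⟩ := hK W hW
  refine hb.trans (le_of_eq ?_)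
  have e : 3 * (δ / 3) = δ := by ring
  rw [e, Real.mul_rpow (by norm_num) (by linarith)]
  ring

/-- **Szpiro's inequality for all curves with a large discriminant.** -/
theorem up {θ κ : ℝ} (hθ1 : θ ≤ 1) (hpos : 0 < κ * (1 - θ) + θ)
    (h : AllCurves θ) :
    Sz θ conductor6 (fun W => IsGlobalMinimal W ∧ height W ^ κ ≤ |(W.Δ : ℝ)|) := by
  intro ε hε
  set μ := κ * (1 - θ) + θ with hμ
  set δ := μ * ε / (6 + ε) with hδ
  have hδ0 : 0 < δ := by positivity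
  obtain ⟨K₀, hK₀⟩ := h δ hδ0
  set K := max K₀ 1 with hKdef
  have hK1 : 1 ≤ K := le_max_right _ _
  set η := ε / (6 + ε) with hη
  have hη1 : η < 1 := by rw [hη, div_lt_one (by positivity)]; linarith
  refine ⟨K ^ (1 / (1 - η)), fun W hW => ?_⟩
  have hH1 : 1 ≤ height W := height_one hW.1.1
  have hb := hK₀ W hW.1
  have hH0 : 0 < height W := by linarith
  have hN1 : (1 : ℝ) ≤ conductor6 W := by exact_mod_cast conductor6_pos W
  have hD1 : 1 ≤ |(W.Δ : ℝ)| := by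
    have : 1 ≤ |W.Δ| := Int.one_le_abs hW.1.1
    exact_mod_cast this
  set Y := |(W.Δ : ℝ)| ^ (1 - θ) * height W ^ θ with hY
  have hYH : height W ^ μ ≤ Y := by
    rw [hμ, Real.rpow_add hH0, Real.rpow_mul hH0.le]
    apply mul_le_mul_of_nonneg_right _ (by positivity)
    exact Real.rpow_le_rpow (by positivity) hW.2 (by linarith)
  have hY0 : 0 < Y := lt_of_lt_of_le (by positivity) hYH
  have hk : Y ≤ K * (conductor6 W : ℝ) ^ (6 : ℝ) * Y ^ η := by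
    have h1 : height W ^ δ ≤ Y ^ η := by
      have e : δ = μ * η := by rw [hδ, hη]; field_simp
      rw [e, Real.rpow_mul hH0.le]
      exact Real.rpow_le_rpow (by positivity) hYH (by positivity)
    calc Y ≤ K₀ * (conductor6 W : ℝ) ^ 6 * height W ^ δ := hb
      _ ≤ K * (conductor6 W : ℝ) ^ 6 * height W ^ δ := by
          gcongr
          exact le_max_left _ _
      _ = K * (conductor6 W : ℝ) ^ (6 : ℝ) * height W ^ δ := by
          rw [← Real.rpow_natCast]; norm_num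
      _ ≤ K * (conductor6 W : ℝ) ^ (6 : ℝ) * Y ^ η := by gcongr
  apply absorb hY0 hK1 hN1 hη1 hk
  have e : (6 + ε) * (1 - η) = 6 := by rw [hη]; field_simp; ring
  rw [e]

end Pool.Agent.N757.SZ
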