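import Pool.Agent.N757.SZ.Minimal

/-!
# The divisibility `g rad(XYZ)⁶ ∣ 30⁴⁰ N₆⁶ X² Y³`
-/

set_option autoImplicit false

namespace Pool.Agent.N757.SZ

open Finset

theorem le_fact {p e n : ℕ} (hp : p.Prime) (hn : n ≠ 0) (h : p ^ e ∣ n) : e ≤ n.factorization p :=
  (hp.pow_dvd_iff_le_factorization hn).1 h

theorem fact_rad_le (n p : ℕ) : (rad n).factorization p ≤ 1 := by
  have h : Squarefree (rad n) := by
    unfold rad
    rw [← Nat.radical_eq_prod_primeFactors]
    exact UniqueFactorizationMonoid.squarefree_radical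
  exact h.natFactorization_le_one p

theorem fact_rad_zero {n p : ℕ} (hn : n ≠ 0) (h : n.factorization p = 0) :
    (rad n).factorization p = 0 := by
  have h1 : (rad n).factorization ≤ n.factorization :=
    (Nat.factorization_le_iff_dvd (rad_pos n).ne' hn).2 (rad_dvd n)
  have := h1 p
  omega

/-- bounds at the primes `2, 3, 5` -/
theorem small_primes {W : WeierstrassCurve ℤ} (h : IsGlobalMinimal W) {p j : ℕ} (hp : p.Prime)
    (hj : 6 < p ^ j) (h4 : W.c₄ ≠ 0) (h6 : W.c₆ ≠ 0) :
    ¬ (4 * j ≤ W.c₄.natAbs.factorization p ∧ 6 * j ≤ W.c₆.natAbs.factorization p) := by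
  rintro ⟨h1, h2⟩
  apply minimal_not_dvd h hj
  constructor
  · have := (hp.pow_dvd_iff_le_factorization (Int.natAbs_ne_zero.2 h4)).2 h1
    have h3 : ((p ^ (4 * j) : ℕ) : ℤ) ∣ W.c₄ := Int.natCast_dvd.2 this
    have e : (((p ^ j : ℕ) : ℤ)) ^ 4 = ((p ^ (4 * j) : ℕ) : ℤ) := by
      push_cast; rw [← pow_mul]; congr 1; ring
    rw [e]; exact h3
  · have := (hp.pow_dvd_iff_le_factorization (Int.natAbs_ne_zero.2 h6)).2 h2
    have h3 : ((p ^ (6 * j) : ℕ) : ℤ) ∣ W.c₆ := Int.natCast_dvd.2 this
    have e : (((p ^ j : ℕ) : ℤ)) ^ 6 = ((p ^ (6 * j) : ℕ) : ℤ) := by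
      push_cast; rw [← pow_mul]; congr 1; ring
    rw [e]; exact h3

/-- the case `c₆ = 0` or `c₄ = 0` -/
theorem small_primes4 {W : WeierstrassCurve ℤ} (h : IsGlobalMinimal W) {p j : ℕ} (hp : p.Prime)
    (hj : 6 < p ^ j) (h4 : W.c₄ ≠ 0) (h6 : W.c₆ = 0) :
    ¬ (4 * j ≤ W.c₄.natAbs.factorization p) := by
  intro h1
  apply minimal_not_dvd h hj
  constructor
  · have := (hp.pow_dvd_iff_le_factorization (Int.natAbs_ne_zero.2 h4)).2 h1
    have h3 : ((p ^ (4 * j) : ℕ) : ℤ) ∣ W.c₄ := Int.natCast_dvd.2 this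
    have e : (((p ^ j : ℕ) : ℤ)) ^ 4 = ((p ^ (4 * j) : ℕ) : ℤ) := by
      push_cast; rw [← pow_mul]; congr 1; ring
    rw [e]; exact h3
  · rw [h6]; exact dvd_zero _

theorem small_primes6 {W : WeierstrassCurve ℤ} (h : IsGlobalMinimal W) {p j : ℕ} (hp : p.Prime)
    (hj : 6 < p ^ j) (h4 : W.c₄ = 0) (h6 : W.c₆ ≠ 0) :
    ¬ (6 * j ≤ W.c₆.natAbs.factorization p) := by
  intro h2
  apply minimal_not_dvd h hj
  constructor
  · rw [h4]; exact dvd_zero _
  · have := (hp.pow_dvd_iff_le_factorization (Int.natAbs_ne_zero.2 h6)).2 h2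
    have h3 : ((p ^ (6 * j) : ℕ) : ℤ) ∣ W.c₆ := Int.natCast_dvd.2 this
    have e : (((p ^ j : ℕ) : ℤ)) ^ 6 = ((p ^ (6 * j) : ℕ) : ℤ) := by
      push_cast; rw [← pow_mul]; congr 1; ring
    rw [e]; exact h3

/-- exponents of `N₆` -/
theorem fact_cond {W : WeierstrassCurve ℤ} {p : ℕ} (hp : p.Prime) (h5 : 5 ≤ p) (h0 : W.Δ ≠ 0)
    (h : (p : ℤ) ∣ W.Δ) :
    1 ≤ (conductor6 W).factorization p ∧
      ((p : ℤ) ∣ W.c₄ → 2 ≤ (conductor6 W).factorization p) := by
  have hmem : p ∈ W.Δ.natAbs.primeFactors.filter (fun p => 5 ≤ p) := by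
    rw [mem_filter, Nat.mem_primeFactors]
    exact ⟨⟨hp, Int.natCast_dvd.1 h, Int.natAbs_ne_zero.2 h0⟩, h5⟩
  have hd := Finset.dvd_prod_of_mem (fun p : ℕ => if (p : ℤ) ∣ W.c₄ then p ^ 2 else p) hmem
  have hN : (conductor6 W) ≠ 0 := (conductor6_pos W).ne'
  change (if (p : ℤ) ∣ W.c₄ then p ^ 2 else p) ∣ conductor6 W at hd
  constructor
  · apply le_fact hp hN
    split_ifs at hd
    · exact (pow_dvd_pow p (by norm_num)).trans hd
    · simpa using hd
  · intro h4
    apply le_fact hp hN
    rw [if_pos h4] at hd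
    exact hd

theorem fact_const {p : ℕ} (hp : p.Prime) (h5 : p < 7) : 40 ≤ ((30 : ℕ) ^ 40).factorization p := by
  apply le_fact hp (by norm_num)
  apply pow_dvd_pow_of_dvd
  interval_cases p
  · exact absurd hp (by norm_num)
  · exact absurd hp (by norm_num)
  · norm_num
  · norm_num
  · exact absurd hp (by norm_num)
  · norm_num
  · exact absurd hp (by norm_num)

theorem small_pow {p : ℕ} (hp : p.Prime) : 6 < p ^ 3 := by
  calc 6 < 2 ^ 3 := by norm_num
    _ ≤ p ^ 3 := Nat.pow_le_pow_left hp.two_le 3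

theorem fact1728 {p : ℕ} (hp : p.Prime) (h7 : 7 ≤ p) : (1728 : ℕ).factorization p = 0 := by
  apply Nat.factorization_eq_zero_of_not_dvd
  intro h
  have e : (1728 : ℕ) = 2 ^ 6 * 3 ^ 3 := by norm_num
  rw [e] at h
  rcases (Nat.Prime.dvd_mul hp).1 h with h | h
  · have := (Nat.prime_dvd_prime_iff_eq hp Nat.prime_two).1 (hp.dvd_of_dvd_pow h)
    omega
  · have := (Nat.prime_dvd_prime_iff_eq hp Nat.prime_three).1 (hp.dvd_of_dvd_pow h)
    omega

/-- **The main divisibility.** -/
theorem dvd_main {W : WeierstrassCurve ℤ} (h : IsGlobalMinimal W) (h4 : W.c₄ ≠ 0) (h6 : W.c₆ ≠ 0)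
    {g X Y Z : ℕ} (hg : g = Nat.gcd (W.c₄.natAbs ^ 3) (W.c₆.natAbs ^ 2))
    (hX : W.c₄.natAbs ^ 3 = g * X) (hY : W.c₆.natAbs ^ 2 = g * Y)
    (hZ : 1728 * W.Δ.natAbs = g * Z) :
    g * rad (X * Y * Z) ^ 6 ∣ 30 ^ 40 * conductor6 W ^ 6 * (X ^ 2 * Y ^ 3) := by
  have hA : W.c₄.natAbs ≠ 0 := Int.natAbs_ne_zero.2 h4
  have hB : W.c₆.natAbs ≠ 0 := Int.natAbs_ne_zero.2 h6
  have hD : W.Δ.natAbs ≠ 0 := Int.natAbs_ne_zero.2 h.1
  have hg0 : g ≠ 0 := by
    rintro rfl; rw [zero_mul] at hX; exact hA (by simpa using hX)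
  have hX0 : X ≠ 0 := by rintro rfl; rw [mul_zero] at hX; exact hA (by simpa using hX)
  have hY0 : Y ≠ 0 := by rintro rfl; rw [mul_zero] at hY; exact hB (by simpa using hY)
  have hZ0 : Z ≠ 0 := by rintro rfl; rw [mul_zero] at hZ; exact hD (by simpa using hZ)
  have hN0 : conductor6 W ≠ 0 := (conductor6_pos W).ne'
  have hr0 : rad (X * Y * Z) ≠ 0 := (rad_pos _).ne'
  have hXYZ : X * Y * Z ≠ 0 := by positivity
  rw [← Nat.factorization_prime_le_iff_dvd (by positivity) (by positivity)]
  intro p hp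
  rw [Nat.factorization_mul hg0 (by positivity), Nat.factorization_pow,
    Nat.factorization_mul (by positivity) (by positivity),
    Nat.factorization_mul (by positivity) (by positivity), Nat.factorization_pow,
    Nat.factorization_mul (by positivity) (by positivity), Nat.factorization_pow,
    Nat.factorization_pow, Nat.factorization_pow]
  simp only [Finsupp.coe_add, Finsupp.coe_smul, Pi.add_apply, Pi.smul_apply, smul_eq_mul]
  -- the relations between the exponents
  have eX : 3 * W.c₄.natAbs.factorization p = g.factorization p + X.factorization p := by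
    have := congrArg (fun n => n.factorization p) hX
    simp only [Nat.factorization_pow, Nat.factorization_mul hg0 hX0, Finsupp.coe_add,
      Finsupp.coe_smul, Pi.add_apply, Pi.smul_apply, smul_eq_mul] at this
    exact this
  have eY : 2 * W.c₆.natAbs.factorization p = g.factorization p + Y.factorization p := by
    have := congrArg (fun n => n.factorization p) hY
    simp only [Nat.factorization_pow, Nat.factorization_mul hg0 hY0, Finsupp.coe_add,
      Finsupp.coe_smul, Pi.add_apply, Pi.smul_apply, smul_eq_mul] at this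
    exact this
  have eZ : (1728 : ℕ).factorization p + W.Δ.natAbs.factorization p =
      g.factorization p + Z.factorization p := by
    have := congrArg (fun n => n.factorization p) hZ
    simp only [Nat.factorization_mul (by norm_num : (1728 : ℕ) ≠ 0) hD,
      Nat.factorization_mul hg0 hZ0, Finsupp.coe_add, Pi.add_apply] at this
    exact this
  have eg : g.factorization p =
      min (3 * W.c₄.natAbs.factorization p) (2 * W.c₆.natAbs.factorization p) := by
    rw [hg, Nat.factorization_gcd (by positivity) (by positivity), Finsupp.inf_apply,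
      Nat.factorization_pow, Nat.factorization_pow]
    simp
  have er1 := fact_rad_le (X * Y * Z) p
  have er0 : X.factorization p = 0 → Y.factorization p = 0 → Z.factorization p = 0 →
      (rad (X * Y * Z)).factorization p = 0 := by
    intro a b c
    apply fact_rad_zero hXYZ
    rw [Nat.factorization_mul (by positivity) hZ0, Nat.factorization_mul hX0 hY0]
    simp [a, b, c]
  by_cases h7 : p < 7
  · -- small primes
    have hs := small_primes h hp (small_pow hp) h4 h6
    have hc := fact_const hp h7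
    rw [Nat.factorization_pow] at hc
    simp only [Finsupp.coe_smul, Pi.smul_apply, smul_eq_mul] at hc
    omega
  · push Not at h7
    have hs := small_primes h (j := 1) hp (by rw [pow_one]; omega) h4 h6
    have h17 := fact1728 hp h7
    have hpd : 1 ≤ W.Δ.natAbs.factorization p →
        1 ≤ (conductor6 W).factorization p ∧
          (1 ≤ W.c₄.natAbs.factorization p → 2 ≤ (conductor6 W).factorization p) := by
      intro h1
      have h2 : (p : ℤ) ∣ W.Δ := by
        apply Int.natCast_dvd.2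
        exact Nat.dvd_of_factorization_pos (by omega)
      obtain ⟨a1, a2⟩ := fact_cond hp (by omega) h.1 h2
      refine ⟨a1, fun h3 => a2 ?_⟩
      apply Int.natCast_dvd.2
      exact Nat.dvd_of_factorization_pos (by omega)
    have hdd : 1 ≤ W.c₄.natAbs.factorization p → 1 ≤ W.c₆.natAbs.factorization p →
        1 ≤ W.Δ.natAbs.factorization p := by
      intro h1 h2
      omega
    omega

/-- the case `c₄ = 0` -/
theorem dvd_c4 {W : WeierstrassCurve ℤ} (h : IsGlobalMinimal W) (h4 : W.c₄ = 0) :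
    W.Δ.natAbs ∣ 30 ^ 40 * conductor6 W ^ 6 := by
  have hD : W.Δ.natAbs ≠ 0 := Int.natAbs_ne_zero.2 h.1
  have hrel := W.c_relation
  rw [h4] at hrel
  have h6 : W.c₆ ≠ 0 := by
    intro h6; rw [h6] at hrel; apply h.1; omega
  have hB : W.c₆.natAbs ≠ 0 := Int.natAbs_ne_zero.2 h6
  have hN0 : conductor6 W ≠ 0 := (conductor6_pos W).ne'
  have hZ : 1728 * W.Δ.natAbs = W.c₆.natAbs ^ 2 := by
    have h1 : 1728 * W.Δ = -(W.c₆ ^ 2) := by linarith
    have h2 := congrArg Int.natAbs h1
    rw [Int.natAbs_mul, Int.natAbs_neg, Int.natAbs_pow] at h2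
    simpa using h2
  rw [← Nat.factorization_prime_le_iff_dvd hD (by positivity)]
  intro p hp
  rw [Nat.factorization_mul (by positivity) (by positivity), Nat.factorization_pow,
    Nat.factorization_pow]
  simp only [Finsupp.coe_add, Finsupp.coe_smul, Pi.add_apply, Pi.smul_apply, smul_eq_mul]
  have eZ : (1728 : ℕ).factorization p + W.Δ.natAbs.factorization p =
      2 * W.c₆.natAbs.factorization p := by
    have := congrArg (fun n => n.factorization p) hZ
    simp only [Nat.factorization_mul (by norm_num : (1728 : ℕ) ≠ 0) hD, Nat.factorization_pow,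
      Finsupp.coe_add, Finsupp.coe_smul, Pi.add_apply, Pi.smul_apply, smul_eq_mul] at this
    exact this
  by_cases h7 : p < 7
  · have hs := small_primes6 h hp (small_pow hp) h4 h6
    have hc := fact_const hp h7
    rw [Nat.factorization_pow] at hc
    simp only [Finsupp.coe_smul, Pi.smul_apply, smul_eq_mul] at hc
    omega
  · push Not at h7
    have hs := small_primes6 h (j := 1) hp (by rw [pow_one]; omega) h4 h6
    by_cases h1 : 1 ≤ W.Δ.natAbs.factorization p
    · have h2 : (p : ℤ) ∣ W.Δ := by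
        apply Int.natCast_dvd.2
        exact Nat.dvd_of_factorization_pos (by omega)
      obtain ⟨a1, a2⟩ := fact_cond hp (by omega) h.1 h2
      have a3 := a2 (by rw [h4]; exact dvd_zero _)
      omega
    · omega

/-- the case `c₆ = 0` -/
theorem dvd_c6 {W : WeierstrassCurve ℤ} (h : IsGlobalMinimal W) (h6 : W.c₆ = 0) :
    W.Δ.natAbs ∣ 30 ^ 40 * conductor6 W ^ 6 := by
  have hD : W.Δ.natAbs ≠ 0 := Int.natAbs_ne_zero.2 h.1
  have hrel := W.c_relation
  rw [h6] at hrel
  have h4 : W.c₄ ≠ 0 := by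
    intro h4; rw [h4] at hrel; apply h.1; omega
  have hA : W.c₄.natAbs ≠ 0 := Int.natAbs_ne_zero.2 h4
  have hN0 : conductor6 W ≠ 0 := (conductor6_pos W).ne'
  have hZ : 1728 * W.Δ.natAbs = W.c₄.natAbs ^ 3 := by
    have h1 : 1728 * W.Δ = W.c₄ ^ 3 := by linarith
    have h2 := congrArg Int.natAbs h1
    rw [Int.natAbs_mul, Int.natAbs_pow] at h2
    simpa using h2
  rw [← Nat.factorization_prime_le_iff_dvd hD (by positivity)]
  intro p hp
  rw [Nat.factorization_mul (by positivity) (by positivity), Nat.factorization_pow,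
    Nat.factorization_pow]
  simp only [Finsupp.coe_add, Finsupp.coe_smul, Pi.add_apply, Pi.smul_apply, smul_eq_mul]
  have eZ : (1728 : ℕ).factorization p + W.Δ.natAbs.factorization p =
      3 * W.c₄.natAbs.factorization p := by
    have := congrArg (fun n => n.factorization p) hZ
    simp only [Nat.factorization_mul (by norm_num : (1728 : ℕ) ≠ 0) hD, Nat.factorization_pow,
      Finsupp.coe_add, Finsupp.coe_smul, Pi.add_apply, Pi.smul_apply, smul_eq_mul] at this
    exact this
  by_cases h7 : p < 7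
  · have hs := small_primes4 h hp (small_pow hp) h4 h6
    have hc := fact_const hp h7
    rw [Nat.factorization_pow] at hc
    simp only [Finsupp.coe_smul, Pi.smul_apply, smul_eq_mul] at hc
    omega
  · push Not at h7
    have hs := small_primes4 h (j := 1) hp (by rw [pow_one]; omega) h4 h6
    by_cases h1 : 1 ≤ W.Δ.natAbs.factorization p
    · have h2 : (p : ℤ) ∣ W.Δ := by
        apply Int.natCast_dvd.2
        exact Nat.dvd_of_factorization_pos (by omega)
      obtain ⟨a1, a2⟩ := fact_cond hp (by omega) h.1 h2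
      have h17 := fact1728 hp h7
      have a3 := a2 (by
        apply Int.natCast_dvd.2
        exact Nat.dvd_of_factorization_pos (by omega))
      omega
    · omega

end Pool.Agent.N757.SZ
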